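import Mathlib
import Pool.Agent.W257.LStm

/-! LV-1 (MP_26d9ad_nt, subtask 810): expansions at infinity. -/

set_option autoImplicit false

namespace Pool.Agent.W469.LV1

open MvPolynomial

/-- the polynomial `g(ξ,u,v)` with `W(x,y,z) = z^m g(x/z, y/z, 1/z)` -/
def Gf {S : Type*} [CommRing S] (W : MvPolynomial (Fin 3) ℤ) (m : ℕ) (ξ u v : S) : S :=
  ∑ n ∈ W.support, ((W.coeff n : ℤ) : S) * ξ ^ (n 0) * (u ^ (n 1) * v ^ (m - (n 0 + n 1 + n 2)))

theorem map_Gf {S T : Type*} [CommRing S] [CommRing T] (φ : S →+* T)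
    (W : MvPolynomial (Fin 3) ℤ) (m : ℕ) (ξ u v : S) :
    φ (Gf W m ξ u v) = Gf W m (φ ξ) (φ u) (φ v) := by
  simp [Gf, map_sum]

theorem deg_le {W : MvPolynomial (Fin 3) ℤ} {m : ℕ} (hW : W.totalDegree ≤ m) {n : Fin 3 →₀ ℕ}
    (hn : n ∈ W.support) : n 0 + n 1 + n 2 ≤ m := by
  have h := (MvPolynomial.le_totalDegree hn).trans hW
  rw [Finsupp.sum_fintype _ _ (fun _ => rfl), Fin.sum_univ_three] at h
  exact h

theorem Gf_eq (W : MvPolynomial (Fin 3) ℤ) (m : ℕ) (hW : W.totalDegree ≤ m) (x y z : ℝ)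
    (hz : z ≠ 0) : z ^ m * Gf W m (x / z) (y / z) (1 / z) = aeval ![x, y, z] W := by
  rw [aeval_def, eval₂_eq', Gf, Finset.mul_sum]
  apply Finset.sum_congr rfl
  intro n hn
  have h1 := deg_le hW hn
  rw [Fin.prod_univ_three]
  simp only [Matrix.cons_val_zero, Matrix.cons_val_one, Matrix.cons_val]
  have h2 : m = n 0 + n 1 + n 2 + (m - (n 0 + n 1 + n 2)) := by omega
  have h3 : z ^ m = z ^ (n 0) * z ^ (n 1) * z ^ (n 2) * z ^ (m - (n 0 + n 1 + n 2)) := by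
    rw [← pow_add, ← pow_add, ← pow_add, ← h2]
  rw [h3, div_pow, div_pow, div_pow, one_pow]
  have e : (algebraMap ℤ ℝ) (coeff n W) = ((coeff n W : ℤ) : ℝ) := rfl
  rw [e]
  field_simp

theorem Gf_zero {S : Type*} [CommRing S] (W : MvPolynomial (Fin 3) ℤ) (m : ℕ) (ρ : Fin m → ℤ)
    (hW : W.totalDegree ≤ m)
    (htop : MvPolynomial.aeval ![MvPolynomial.X 0, 0, MvPolynomial.X 1]
    (MvPolynomial.homogeneousComponent m W)
    = ∏ i, (MvPolynomial.X 0 - MvPolynomial.C (ρ i) * MvPolynomial.X 1 : MvPolynomial (Fin 2) ℤ))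
    (ξ : S) : Gf W m ξ 0 0 = ∏ i, (ξ - ((ρ i : ℤ) : S)) := by
  have h := congrArg (aeval ![ξ, 1] : MvPolynomial (Fin 2) ℤ →ₐ[ℤ] S) htop
  rw [map_prod] at h
  have h2 : ∀ i, (aeval ![ξ, 1] : MvPolynomial (Fin 2) ℤ →ₐ[ℤ] S)
      (MvPolynomial.X 0 - MvPolynomial.C (ρ i) * MvPolynomial.X 1) = ξ - ((ρ i : ℤ) : S) := by
    intro i
    simp
  rw [Finset.prod_congr rfl (fun i _ => h2 i)] at h
  rw [← h, homogeneousComponent_apply, map_sum, map_sum, Gf, Finset.sum_filter]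
  apply Finset.sum_congr rfl
  intro n hn
  have h1 := deg_le hW hn
  have hd : n.degree = n 0 + n 1 + n 2 := by
    rw [Finsupp.degree_eq_sum, Fin.sum_univ_three]
  rw [hd]
  split_ifs with hc
  · rw [aeval_monomial, Finsupp.prod_pow, Fin.prod_univ_three]
    simp only [Matrix.cons_val_zero, Matrix.cons_val_one, Matrix.cons_val, map_mul, map_pow,
      aeval_X, map_zero, one_pow, mul_one]
    rw [hc, Nat.sub_self, pow_zero, mul_one, mul_assoc]
    simp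
  · have : m - (n 0 + n 1 + n 2) ≠ 0 := by omega
    rw [zero_pow this]
    simp

/-- Newton iteration with fixed derivative -/
theorem newton {R : Type*} [CommRing R] (I : Ideal R) (g : Polynomial R) (a d : R)
    (h0 : g.eval a ∈ I) (h1 : g.derivative.eval a * d - 1 ∈ I) (k : ℕ) :
    ∃ q, q - a ∈ I ∧ g.eval q ∈ I ^ (k + 1) := by
  induction k with
  | zero => exact ⟨a, by simp, by simpa using h0⟩
  | succ k ih =>
    obtain ⟨q, hq, hg⟩ := ih
    obtain ⟨c, hc⟩ := Polynomial.binomExpansion g q (-(d * g.eval q))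
    have hgI : g.eval q ∈ I := by
      have := Ideal.pow_le_self (I := I) (n := k + 1) (by omega)
      exact this hg
    have hder : g.derivative.eval q * d - 1 ∈ I := by
      have h2 : g.derivative.eval q - g.derivative.eval a ∈ I := by
        obtain ⟨z, hz⟩ := Polynomial.sub_dvd_eval_sub q a g.derivative
        rw [hz]
        exact I.mul_mem_right _ hq
      have e : g.derivative.eval q * d - 1 = (g.derivative.eval q - g.derivative.eval a) * d +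
          (g.derivative.eval a * d - 1) := by ring
      rw [e]
      exact I.add_mem (I.mul_mem_right _ h2) h1
    refine ⟨q + -(d * g.eval q), ?_, ?_⟩
    · have e : q + -(d * g.eval q) - a = (q - a) - d * g.eval q := by ring
      rw [e]
      exact I.sub_mem hq (I.mul_mem_left _ hgI)
    · rw [hc]
      have e : g.eval q + g.derivative.eval q * -(d * g.eval q) + c * (-(d * g.eval q)) ^ 2 =
          g.eval q * (g.derivative.eval q * d - 1) * (-1) + (g.eval q * g.eval q) * (c * d ^ 2) := by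
        ring
      rw [e]
      refine Ideal.add_mem _ (Ideal.mul_mem_right _ _ ?_) (Ideal.mul_mem_right _ _ ?_)
      · rw [pow_succ]
        exact Ideal.mul_mem_mul hg hder
      · rw [pow_succ]
        exact Ideal.mul_mem_mul hg hgI

/-- polynomials in `u, v` are bounded on the unit square -/
theorem bdd (f : MvPolynomial (Fin 2) ℚ) : ∃ C : ℝ, 0 ≤ C ∧ ∀ u v : ℝ, |u| ≤ 1 → |v| ≤ 1 →
    |aeval ![u, v] f| ≤ C := by
  induction f using MvPolynomial.induction_on with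
  | C a =>
    refine ⟨|(a : ℝ)|, abs_nonneg _, fun u v _ _ => ?_⟩
    simp
  | add p q hp hq =>
    obtain ⟨C1, h1, H1⟩ := hp
    obtain ⟨C2, h2, H2⟩ := hq
    refine ⟨C1 + C2, by positivity, fun u v hu hv => ?_⟩
    rw [map_add]
    exact (abs_add_le _ _).trans (add_le_add (H1 u v hu hv) (H2 u v hu hv))
  | mul_X p i hp =>
    obtain ⟨C1, h1, H1⟩ := hp
    refine ⟨C1, h1, fun u v hu hv => ?_⟩
    rw [map_mul, aeval_X, abs_mul]
    have h3 : |(![u, v] : Fin 2 → ℝ) i| ≤ 1 := by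
      fin_cases i
      · exact hu
      · exact hv
    calc |aeval ![u, v] p| * |(![u, v] : Fin 2 → ℝ) i| ≤ C1 * 1 :=
          mul_le_mul (H1 u v hu hv) h3 (abs_nonneg _) h1
      _ = C1 := mul_one _

/-- polynomials which are `O(δ^k)` for `|u|, |v| ≤ δ ≤ 1` -/
def J (k : ℕ) : Ideal (MvPolynomial (Fin 2) ℚ) where
  carrier := {f | ∃ C : ℝ, 0 ≤ C ∧ ∀ δ u v : ℝ, 0 ≤ δ → δ ≤ 1 → |u| ≤ δ → |v| ≤ δ →
    |aeval ![u, v] f| ≤ C * δ ^ k}
  add_mem' := by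
    rintro a b ⟨C1, h1, H1⟩ ⟨C2, h2, H2⟩
    refine ⟨C1 + C2, by positivity, fun δ u v h0 hd hu hv => ?_⟩
    rw [map_add, add_mul]
    exact (abs_add_le _ _).trans (add_le_add (H1 δ u v h0 hd hu hv) (H2 δ u v h0 hd hu hv))
  zero_mem' := ⟨0, le_rfl, fun δ u v _ _ _ _ => by simp⟩
  smul_mem' := by
    rintro c f ⟨C1, h1, H1⟩
    obtain ⟨B, hB, HB⟩ := bdd c
    refine ⟨B * C1, by positivity, fun δ u v h0 hd hu hv => ?_⟩
    rw [smul_eq_mul, map_mul, abs_mul, mul_assoc]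
    exact mul_le_mul (HB u v (hu.trans hd) (hv.trans hd)) (H1 δ u v h0 hd hu hv) (abs_nonneg _) hB

theorem J_pow (I : Ideal (MvPolynomial (Fin 2) ℚ)) (hI : I ≤ J 1) (k : ℕ) : I ^ k ≤ J k := by
  induction k with
  | zero =>
    intro f _
    obtain ⟨B, hB, HB⟩ := bdd f
    exact ⟨B, hB, fun δ u v h0 hd hu hv => by
      rw [pow_zero, mul_one]; exact HB u v (hu.trans hd) (hv.trans hd)⟩
  | succ k ih =>
    rw [pow_succ, Ideal.mul_le]
    intro f hf g hg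
    obtain ⟨C1, h1, H1⟩ := ih hf
    obtain ⟨C2, h2, H2⟩ := hI hg
    refine ⟨C1 * C2, by positivity, fun δ u v h0 hd hu hv => ?_⟩
    rw [map_mul, abs_mul]
    calc |aeval ![u, v] f| * |aeval ![u, v] g| ≤ (C1 * δ ^ k) * (C2 * δ ^ 1) :=
          mul_le_mul (H1 δ u v h0 hd hu hv) (H2 δ u v h0 hd hu hv) (abs_nonneg _) (by positivity)
      _ = C1 * C2 * δ ^ (k + 1) := by ring

/-- the ideal `(u,v)` as the kernel of the evaluation at `0` -/
theorem ker_le : RingHom.ker (constantCoeff : MvPolynomial (Fin 2) ℚ →+* ℚ) ≤ J 1 := by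
  have key : ∀ f : MvPolynomial (Fin 2) ℚ, f - C (constantCoeff f) ∈ J 1 := by
    intro f
    induction f using MvPolynomial.induction_on with
    | C a => simp
    | add p q hp hq =>
      have e : p + q - C (constantCoeff (p + q)) = (p - C (constantCoeff p)) +
        (q - C (constantCoeff q)) := by rw [map_add, map_add]; ring
      rw [e]; exact Ideal.add_mem _ hp hq
    | mul_X p i hp =>
      rw [map_mul, constantCoeff_X, mul_zero, map_zero, sub_zero]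
      refine Ideal.mul_mem_left _ _ ?_
      refine ⟨1, zero_le_one, fun δ u v h0 hd hu hv => ?_⟩
      rw [aeval_X, pow_one, one_mul]
      fin_cases i
      · exact hu
      · exact hv
  intro f hf
  have h := key f
  rw [RingHom.mem_ker] at hf
  rwa [hf, map_zero, sub_zero] at h

theorem small_mono (a b : ℕ) {δ u v : ℝ} (h0 : 0 ≤ δ) (hd : δ ≤ 1) (hu : |u| ≤ δ)
    (hv : |v| ≤ δ) : |u ^ a * v ^ b - 0 ^ a * 0 ^ b| ≤ δ := by
  by_cases hab : a + b = 0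
  · have ha : a = 0 := by omega
    have hb : b = 0 := by omega
    subst ha; subst hb
    simpa using h0
  · have hz : (0 : ℝ) ^ a * 0 ^ b = 0 := by rw [← pow_add]; exact zero_pow hab
    rw [hz, sub_zero, abs_mul, abs_pow, abs_pow]
    calc |u| ^ a * |v| ^ b ≤ δ ^ a * δ ^ b :=
          mul_le_mul (pow_le_pow_left₀ (abs_nonneg _) hu _) (pow_le_pow_left₀ (abs_nonneg _) hv _)
            (by positivity) (by positivity)
      _ = δ ^ (a + b) := by rw [pow_add]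
      _ ≤ δ ^ 1 := pow_le_pow_of_le_one h0 hd (by omega)
      _ = δ := pow_one _

theorem Gf_sub (W : MvPolynomial (Fin 3) ℤ) (m : ℕ) (ξ u v : ℝ) :
    Gf W m ξ u v - Gf W m ξ 0 0 = ∑ n ∈ W.support, ((W.coeff n : ℤ) : ℝ) * ξ ^ (n 0) *
      (u ^ (n 1) * v ^ (m - (n 0 + n 1 + n 2)) - 0 ^ (n 1) * 0 ^ (m - (n 0 + n 1 + n 2))) := by
  rw [Gf, Gf, ← Finset.sum_sub_distrib]
  apply Finset.sum_congr rfl
  intro n _
  ring

theorem E1 (W : MvPolynomial (Fin 3) ℤ) (m : ℕ) (hW : W.totalDegree ≤ m) :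
    ∃ C1 : ℝ, 0 ≤ C1 ∧ ∀ δ u v ξ : ℝ, 0 ≤ δ → δ ≤ 1 → |u| ≤ δ → |v| ≤ δ →
      |Gf W m ξ u v - Gf W m ξ 0 0| ≤ C1 * δ * (max 1 |ξ|) ^ (m - 1) := by
  refine ⟨∑ n ∈ W.support, |((W.coeff n : ℤ) : ℝ)|, Finset.sum_nonneg fun _ _ => abs_nonneg _, ?_⟩
  intro δ u v ξ h0 hd hu hv
  rw [Gf_sub, Finset.sum_mul, Finset.sum_mul]
  refine (Finset.abs_sum_le_sum_abs _ _).trans (Finset.sum_le_sum fun n hn => ?_)
  have h1 := deg_le hW hn
  rw [abs_mul, abs_mul, abs_pow]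
  have hM : (1 : ℝ) ≤ max 1 |ξ| := le_max_left _ _
  by_cases hc : n 0 < m
  · have h3 : |ξ| ^ (n 0) ≤ (max 1 |ξ|) ^ (m - 1) :=
      (pow_le_pow_left₀ (abs_nonneg _) (le_max_right _ _) _).trans
        (pow_le_pow_right₀ hM (by omega))
    calc |((coeff n W : ℤ) : ℝ)| * |ξ| ^ (n 0) * |u ^ (n 1) * v ^ (m - (n 0 + n 1 + n 2))
            - 0 ^ (n 1) * 0 ^ (m - (n 0 + n 1 + n 2))|
        ≤ |((coeff n W : ℤ) : ℝ)| * (max 1 |ξ|) ^ (m - 1) * δ :=
          mul_le_mul (mul_le_mul_of_nonneg_left h3 (abs_nonneg _))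
            (small_mono _ _ h0 hd hu hv) (abs_nonneg _) (by positivity)
      _ = |((coeff n W : ℤ) : ℝ)| * δ * (max 1 |ξ|) ^ (m - 1) := by ring
  · have e1 : n 1 = 0 := by omega
    have e2 : m - (n 0 + n 1 + n 2) = 0 := by omega
    rw [e1, e1] at *
    rw [e2]
    simp only [pow_zero, mul_one, sub_self, abs_zero, mul_zero]
    positivity

theorem E2 (W : MvPolynomial (Fin 3) ℤ) (m : ℕ) (M : ℝ) :
    ∃ C2 : ℝ, 0 ≤ C2 ∧ ∀ δ u v ξ η : ℝ, 0 ≤ δ → δ ≤ 1 → |u| ≤ δ → |v| ≤ δ → |ξ| ≤ M → |η| ≤ M →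
      |(Gf W m ξ u v - Gf W m ξ 0 0) - (Gf W m η u v - Gf W m η 0 0)| ≤ C2 * δ * |ξ - η| := by
  refine ⟨∑ n ∈ W.support, |((W.coeff n : ℤ) : ℝ)| * ((n 0 : ℕ) * |M| ^ (n 0 - 1)),
    Finset.sum_nonneg fun _ _ => by positivity, ?_⟩
  intro δ u v ξ η h0 hd hu hv hξ hη
  rw [Gf_sub, Gf_sub, ← Finset.sum_sub_distrib, Finset.sum_mul, Finset.sum_mul]
  refine (Finset.abs_sum_le_sum_abs _ _).trans (Finset.sum_le_sum fun n hn => ?_)
  rw [← sub_mul, ← mul_sub, abs_mul, abs_mul]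
  have h3 : |ξ ^ (n 0) - η ^ (n 0)| ≤ |ξ - η| * (n 0) * |M| ^ (n 0 - 1) := by
    refine (abs_pow_sub_pow_le ..).trans ?_
    refine mul_le_mul_of_nonneg_left ?_ (by positivity)
    refine pow_le_pow_left₀ (by positivity) ?_ _
    exact max_le (hξ.trans (le_abs_self _)) (hη.trans (le_abs_self _))
  calc |((coeff n W : ℤ) : ℝ)| * |ξ ^ (n 0) - η ^ (n 0)| * |u ^ (n 1) * v ^ (m - (n 0 + n 1 + n 2))
            - 0 ^ (n 1) * 0 ^ (m - (n 0 + n 1 + n 2))|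
        ≤ |((coeff n W : ℤ) : ℝ)| * (|ξ - η| * (n 0) * |M| ^ (n 0 - 1)) * δ :=
          mul_le_mul (mul_le_mul_of_nonneg_left h3 (abs_nonneg _))
            (small_mono _ _ h0 hd hu hv) (abs_nonneg _) (by positivity)
    _ = |((coeff n W : ℤ) : ℝ)| * ((n 0 : ℕ) * |M| ^ (n 0 - 1)) * δ * |ξ - η| := by ring

theorem roots_near (m : ℕ) (ρ : Fin m → ℤ) (C1 : ℝ) (hC1 : 0 ≤ C1) (ε : Fin m → ℝ)
    (hε : ∀ i, 0 < ε i) : ∃ δ₀ : ℝ, 0 < δ₀ ∧ ∀ δ ξ : ℝ, 0 ≤ δ → δ ≤ δ₀ →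
      |∏ i, (ξ - ((ρ i : ℤ) : ℝ))| ≤ C1 * δ * (max 1 |ξ|) ^ (m - 1) → ∃ i, |ξ - ρ i| < ε i := by
  obtain ⟨e, he, he0⟩ : ∃ e : ℝ, (∀ i, e ≤ ε i) ∧ 0 < e := by
    have h : ∀ᶠ e in nhdsWithin (0 : ℝ) (Set.Ioi 0), ∀ i, e ≤ ε i := by
      rw [Filter.eventually_all]
      intro i
      exact Filter.Eventually.filter_mono nhdsWithin_le_nhds (eventually_le_nhds (hε i))
    exact (h.and self_mem_nhdsWithin).exists
  set B : ℝ := 1 + ∑ i, |((ρ i : ℤ) : ℝ)| with hB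
  have hS : 0 ≤ ∑ i, |((ρ i : ℤ) : ℝ)| := Finset.sum_nonneg fun _ _ => abs_nonneg _
  have hB1 : 1 ≤ B := by linarith
  set e' : ℝ := min e 1 with he'
  have he'0 : 0 < e' := lt_min he0 one_pos
  set c : ℝ := e' / (2 * B) with hc
  have hc0 : 0 < c := by positivity
  have hc2 : c ≤ 1 / 2 := by
    rw [hc, div_le_iff₀ (by positivity)]
    have : e' ≤ 1 := min_le_right _ _
    linarith
  refine ⟨c ^ m / (2 * (C1 + 1)), by positivity, ?_⟩
  intro δ ξ h0 hd hle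
  by_contra hcon
  push Not at hcon
  have hM : (1 : ℝ) ≤ max 1 |ξ| := le_max_left _ _
  have key : ∀ i, c * max 1 |ξ| ≤ |ξ - ρ i| := by
    intro i
    rcases le_or_gt |ξ| (2 * B) with h | h
    · have h1 : max 1 |ξ| ≤ 2 * B := max_le (by linarith) h
      calc c * max 1 |ξ| ≤ c * (2 * B) := mul_le_mul_of_nonneg_left h1 hc0.le
        _ = e' := by rw [hc]; field_simp
        _ ≤ e := min_le_left _ _
        _ ≤ ε i := he i
        _ ≤ _ := hcon i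
    · have h1 : max 1 |ξ| = |ξ| := max_eq_right (by linarith)
      have h2 : |((ρ i : ℤ) : ℝ)| ≤ ∑ i, |((ρ i : ℤ) : ℝ)| :=
        Finset.single_le_sum (f := fun i => |((ρ i : ℤ) : ℝ)|) (fun _ _ => abs_nonneg _)
          (Finset.mem_univ i)
      have h3 : |ξ| - |((ρ i : ℤ) : ℝ)| ≤ |ξ - ρ i| := abs_sub_abs_le_abs_sub _ _
      have h4 : c * |ξ| ≤ 1 / 2 * |ξ| := mul_le_mul_of_nonneg_right hc2 (abs_nonneg _)
      rw [h1]
      linarith
  have h1 : (c * max 1 |ξ|) ^ m ≤ |∏ i, (ξ - ((ρ i : ℤ) : ℝ))| := by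
    rw [Finset.abs_prod]
    calc (c * max 1 |ξ|) ^ m = ∏ _i : Fin m, (c * max 1 |ξ|) := by simp
      _ ≤ _ := Finset.prod_le_prod (fun _ _ => by positivity) (fun i _ => key i)
  have h2 : (max 1 |ξ|) ^ (m - 1) ≤ (max 1 |ξ|) ^ m := pow_le_pow_right₀ hM (by omega)
  have h3 : c ^ m * (max 1 |ξ|) ^ m ≤ C1 * δ * (max 1 |ξ|) ^ m := by
    rw [← mul_pow]
    exact (h1.trans hle).trans (mul_le_mul_of_nonneg_left h2 (by positivity))
  have h4 : c ^ m ≤ C1 * δ := le_of_mul_le_mul_right h3 (by positivity)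
  have h5 : C1 * δ ≤ C1 * (c ^ m / (2 * (C1 + 1))) := mul_le_mul_of_nonneg_left hd hC1
  have h6 : C1 * (c ^ m / (2 * (C1 + 1))) < c ^ m := by
    have hcm : 0 < c ^ m := by positivity
    rw [mul_div_assoc', div_lt_iff₀ (by positivity)]
    nlinarith
  linarith

theorem deriv_ne (m : ℕ) (ρ : Fin m → ℤ) (hρ : Function.Injective ρ) {S : Type*} [Field S]
    [CharZero S] (i : Fin m) :
    (∏ j, (Polynomial.X - Polynomial.C ((ρ j : ℤ) : S))).derivative.eval ((ρ i : ℤ) : S) ≠ 0 := by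
  rw [← Finset.mul_prod_erase _ _ (Finset.mem_univ i), Polynomial.derivative_mul]
  simp only [Polynomial.derivative_sub, Polynomial.derivative_X, Polynomial.derivative_C,
    sub_zero, one_mul, Polynomial.eval_add, Polynomial.eval_mul, Polynomial.eval_sub,
    Polynomial.eval_X, Polynomial.eval_C, sub_self, zero_mul, add_zero]
  rw [Polynomial.eval_prod, Finset.prod_ne_zero_iff]
  intro j hj
  rw [Polynomial.eval_sub, Polynomial.eval_X, Polynomial.eval_C, sub_ne_zero]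
  intro h
  exact (Finset.ne_of_mem_erase hj) (hρ (Int.cast_injective h)).symm

theorem lower (m : ℕ) (ρ : Fin m → ℤ) (hρ : Function.Injective ρ) (i : Fin m) :
    ∃ ε D : ℝ, 0 < ε ∧ 0 < D ∧ ∀ ξ η : ℝ, |ξ - ρ i| < ε → |η - ρ i| < ε →
      D * |ξ - η| ≤ |∏ j, (ξ - ((ρ j : ℤ) : ℝ)) - ∏ j, (η - ((ρ j : ℤ) : ℝ))| := by
  set P : Polynomial ℝ := ∏ j, (Polynomial.X - Polynomial.C ((ρ j : ℤ) : ℝ)) with hP
  have hev : ∀ ξ : ℝ, ∏ j, (ξ - ((ρ j : ℤ) : ℝ)) = P.eval ξ := by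
    intro ξ
    rw [hP, Polynomial.eval_prod]
    simp
  have hne := deriv_ne m ρ hρ (S := ℝ) i
  rw [← hP] at hne
  have hs := (P.hasStrictDerivAt ((ρ i : ℤ) : ℝ)).hasStrictFDerivAt.isLittleO
  have hD : 0 < |P.derivative.eval ((ρ i : ℤ) : ℝ)| / 2 := by positivity
  have hev2 := hs.def hD
  rw [Metric.eventually_nhds_iff] at hev2
  obtain ⟨ε, hε, H⟩ := hev2
  refine ⟨ε, |P.derivative.eval ((ρ i : ℤ) : ℝ)| / 2, hε, hD, fun ξ η hξ hη => ?_⟩
  have h := H (y := (ξ, η)) (by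
    rw [Prod.dist_eq, Real.dist_eq, Real.dist_eq]
    exact max_lt hξ hη)
  simp only [Real.norm_eq_abs] at h
  have h2 : (ContinuousLinearMap.toSpanSingleton ℝ (P.derivative.eval ((ρ i : ℤ) : ℝ))) (ξ - η)
      = (ξ - η) * P.derivative.eval ((ρ i : ℤ) : ℝ) := by
    simp [ContinuousLinearMap.toSpanSingleton_apply]
  rw [h2] at h
  rw [hev, hev]
  have h3 : |(ξ - η) * P.derivative.eval ((ρ i : ℤ) : ℝ)| =
      |P.derivative.eval ((ρ i : ℤ) : ℝ)| * |ξ - η| := by rw [abs_mul, mul_comm]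
  have h4 := abs_sub_abs_le_abs_sub ((ξ - η) * P.derivative.eval ((ρ i : ℤ) : ℝ))
    (P.eval ξ - P.eval η)
  rw [abs_sub_comm ((ξ - η) * P.derivative.eval ((ρ i : ℤ) : ℝ))] at h4
  linarith

/-- the Newton polynomials -/
theorem approx (W : MvPolynomial (Fin 3) ℤ) (m : ℕ) (ρ : Fin m → ℤ) (hρ : Function.Injective ρ)
    (hW : W.totalDegree ≤ m)
    (htop : MvPolynomial.aeval ![MvPolynomial.X 0, 0, MvPolynomial.X 1]
    (MvPolynomial.homogeneousComponent m W)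
    = ∏ i, (MvPolynomial.X 0 - MvPolynomial.C (ρ i) * MvPolynomial.X 1 : MvPolynomial (Fin 2) ℤ))
    (K : ℕ) (i : Fin m) : ∃ (q : MvPolynomial (Fin 2) ℚ) (Cq Cg : ℝ), 0 ≤ Cq ∧ 0 ≤ Cg ∧
      ∀ δ u v : ℝ, 0 ≤ δ → δ ≤ 1 → |u| ≤ δ → |v| ≤ δ →
        |aeval ![u, v] q - ρ i| ≤ Cq * δ ∧
        |Gf W m (aeval ![u, v] q : ℝ) u v| ≤ Cg * δ ^ (K + 1) := by
  set I : Ideal (MvPolynomial (Fin 2) ℚ) :=
    RingHom.ker (constantCoeff : MvPolynomial (Fin 2) ℚ →+* ℚ) with hI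
  set g : Polynomial (MvPolynomial (Fin 2) ℚ) :=
    Gf W m Polynomial.X (Polynomial.C (X 0)) (Polynomial.C (X 1)) with hg
  have hgm : g.map (constantCoeff : MvPolynomial (Fin 2) ℚ →+* ℚ) =
      ∏ j, (Polynomial.X - Polynomial.C ((ρ j : ℤ) : ℚ)) := by
    have h := map_Gf (Polynomial.mapRingHom (constantCoeff : MvPolynomial (Fin 2) ℚ →+* ℚ)) W m
      Polynomial.X (Polynomial.C (X 0)) (Polynomial.C (X 1))
    rw [Polynomial.coe_mapRingHom] at h
    rw [hg, h]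
    simp only [Polynomial.map_X, Polynomial.map_C, constantCoeff_X, map_zero]
    rw [Gf_zero W m ρ hW htop]
    simp
  have hφ : ∀ (p : Polynomial (MvPolynomial (Fin 2) ℚ)) (x : MvPolynomial (Fin 2) ℚ),
      (constantCoeff : MvPolynomial (Fin 2) ℚ →+* ℚ) (p.eval x) =
      (p.map (constantCoeff : MvPolynomial (Fin 2) ℚ →+* ℚ)).eval (constantCoeff x) := by
    intro p x
    rw [Polynomial.eval_map, Polynomial.eval₂_at_apply]
  have hne := deriv_ne m ρ hρ (S := ℚ) i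
  have hcc : (constantCoeff : MvPolynomial (Fin 2) ℚ →+* ℚ) (((ρ i : ℤ) : MvPolynomial (Fin 2) ℚ))
      = ((ρ i : ℤ) : ℚ) := by simp
  obtain ⟨q, hq, hgq⟩ := newton I g ((ρ i : ℤ) : MvPolynomial (Fin 2) ℚ)
    (C (((∏ j, (Polynomial.X - Polynomial.C ((ρ j : ℤ) : ℚ))).derivative.eval
      ((ρ i : ℤ) : ℚ))⁻¹)) (by
      rw [hI, RingHom.mem_ker, hφ, hgm, hcc, Polynomial.eval_prod]
      apply Finset.prod_eq_zero (Finset.mem_univ i)
      simp) (by
      rw [hI, RingHom.mem_ker, map_sub, map_mul, hφ, ← Polynomial.derivative_map, hgm, hcc,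
        constantCoeff_C, map_one, mul_inv_cancel₀ hne, sub_self]) K
  obtain ⟨Cq, hCq, HCq⟩ := ker_le hq
  obtain ⟨Cg, hCg, HCg⟩ := J_pow I ker_le (K + 1) hgq
  refine ⟨q, Cq, Cg, hCq, hCg, fun δ u v h0 hd hu hv => ⟨?_, ?_⟩⟩
  · have h := HCq δ u v h0 hd hu hv
    rw [map_sub, pow_one] at h
    simpa using h
  · have h := HCg δ u v h0 hd hu hv
    have h1 : g.eval q = Gf W m q (X 0) (X 1) := by
      have h := map_Gf (Polynomial.evalRingHom q) W m Polynomial.X (Polynomial.C (X 0))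
        (Polynomial.C (X 1))
      rw [Polynomial.coe_evalRingHom] at h
      rw [hg, h]
      simp
    rw [h1] at h
    have h2 := map_Gf (aeval ![u, v] : MvPolynomial (Fin 2) ℚ →ₐ[ℚ] ℝ).toRingHom W m q (X 0) (X 1)
    simp only [AlgHom.toRingHom_eq_coe, RingHom.coe_coe, aeval_X, Matrix.cons_val_zero,
      Matrix.cons_val_one] at h2
    rw [h2] at h
    exact h

theorem main : Pool.Agent.W257.S_exp := by
  intro m ρ hρ W hW htop K
  obtain ⟨C1, hC1, HC1⟩ := E1 W m hW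
  choose ε D hε hD hlow using lower m ρ hρ
  choose q Cq Cg hCq hCg hq using approx W m ρ hρ hW htop K
  choose C2 hC2 HC2 using fun i : Fin m => E2 W m (|((ρ i : ℤ) : ℝ)| + ε i)
  obtain ⟨δ₀, hδ₀, Hδ₀⟩ := roots_near m ρ C1 hC1 ε hε
  obtain ⟨δ₁, ⟨hd1, hd2, hd3⟩, hδ₁⟩ : ∃ δ₁ : ℝ, (δ₁ ≤ 1 ∧ δ₁ ≤ δ₀ ∧
      ∀ i, Cq i * δ₁ < ε i ∧ C2 i * δ₁ ≤ D i / 2) ∧ 0 < δ₁ := by
    have h : ∀ᶠ δ₁ in nhdsWithin (0 : ℝ) (Set.Ioi 0), δ₁ ≤ 1 ∧ δ₁ ≤ δ₀ ∧
      ∀ i, Cq i * δ₁ < ε i ∧ C2 i * δ₁ ≤ D i / 2 := by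
      refine Filter.Eventually.filter_mono nhdsWithin_le_nhds ?_
      refine (eventually_le_nhds one_pos).and ((eventually_le_nhds hδ₀).and ?_)
      rw [Filter.eventually_all]
      intro i
      have c1 : Filter.Tendsto (fun δ : ℝ => Cq i * δ) (nhds 0) (nhds 0) := by
        have : Filter.Tendsto (fun δ : ℝ => Cq i * δ) (nhds 0) (nhds (Cq i * 0)) :=
          (continuous_const.mul continuous_id).tendsto 0
        simpa using this
      have c2 : Filter.Tendsto (fun δ : ℝ => C2 i * δ) (nhds 0) (nhds 0) := by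
        have : Filter.Tendsto (fun δ : ℝ => C2 i * δ) (nhds 0) (nhds (C2 i * 0)) :=
          (continuous_const.mul continuous_id).tendsto 0
        simpa using this
      exact (c1.eventually (eventually_lt_nhds (hε i))).and
        (c2.eventually (eventually_le_nhds (half_pos (hD i))))
    exact (h.and self_mem_nhdsWithin).exists
  refine ⟨q, ∑ i, 2 / D i * Cg i, 1 / δ₁, ?_⟩
  intro x y t hA hy h0
  have ht0 : 0 < |t| := lt_of_lt_of_le (by positivity) hA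
  have htne : t ≠ 0 := abs_pos.mp ht0
  have hyne : y ≠ 0 := by
    intro h; rw [h, abs_zero] at hy; linarith
  have hz : t * y ≠ 0 := mul_ne_zero htne hyne
  set δ : ℝ := 1 / |t| with hδ
  have hδ0 : 0 ≤ δ := by positivity
  have hδ1 : δ ≤ δ₁ := by
    rw [hδ, div_le_iff₀ ht0]
    rw [div_le_iff₀ hδ₁] at hA
    linarith
  set u : ℝ := 1 / t with hu
  set v : ℝ := 1 / (t * y) with hv
  have hu1 : |u| ≤ δ := by rw [hu, hδ, abs_div, abs_one]
  have hv1 : |v| ≤ δ := by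
    rw [hv, hδ, abs_div, abs_one, abs_mul]
    apply one_div_le_one_div_of_le ht0
    nlinarith
  have hF : Gf W m (x / (t * y)) u v = 0 := by
    have h := Gf_eq W m hW x y (t * y) hz
    rw [h0] at h
    have e : y / (t * y) = u := by rw [hu]; field_simp
    rw [e] at h
    exact (mul_eq_zero.mp h).resolve_left (pow_ne_zero _ hz)
  set ξ : ℝ := x / (t * y) with hξ
  have hδle1 : δ ≤ 1 := hδ1.trans hd1
  have hprod := HC1 δ u v ξ hδ0 hδle1 hu1 hv1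
  rw [hF, zero_sub, abs_neg, Gf_zero W m ρ hW htop] at hprod
  obtain ⟨i, hi⟩ := Hδ₀ δ ξ hδ0 (hδ1.trans hd2) hprod
  refine ⟨i, ?_⟩
  obtain ⟨hq1, hq2⟩ := hq i δ u v hδ0 hδle1 hu1 hv1
  set η : ℝ := aeval ![u, v] (q i) with hη
  have hηi : |η - ρ i| < ε i := by
    refine lt_of_le_of_lt (hq1.trans ?_) (hd3 i).1
    exact mul_le_mul_of_nonneg_left hδ1 (hCq i)
  have hl := hlow i ξ η hi hηi
  have hbd : ∀ s : ℝ, |s - ρ i| < ε i → |s| ≤ |((ρ i : ℤ) : ℝ)| + ε i := by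
    intro s hs
    have h : |s| - |((ρ i : ℤ) : ℝ)| ≤ |s - ρ i| := abs_sub_abs_le_abs_sub _ _
    linarith
  have h2 := HC2 i δ u v ξ η hδ0 hδle1 hu1 hv1 (hbd ξ hi) (hbd η hηi)
  rw [hF, Gf_zero W m ρ hW htop, Gf_zero W m ρ hW htop] at h2
  have h3 : |∏ j, (ξ - ((ρ j : ℤ) : ℝ)) - ∏ j, (η - ((ρ j : ℤ) : ℝ))| ≤
      C2 i * δ * |ξ - η| + Cg i * δ ^ (K + 1) := by
    have e : ∏ j, (ξ - ((ρ j : ℤ) : ℝ)) - ∏ j, (η - ((ρ j : ℤ) : ℝ)) =
        -((0 - ∏ j, (ξ - ((ρ j : ℤ) : ℝ))) - (Gf W m η u v - ∏ j, (η - ((ρ j : ℤ) : ℝ))))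
        + (- Gf W m η u v) := by ring
    rw [e]
    refine (abs_add_le _ _).trans (add_le_add ?_ ?_)
    · rw [abs_neg]; exact h2
    · rw [abs_neg]; exact hq2
  have h4 : C2 i * δ * |ξ - η| ≤ D i / 2 * |ξ - η| := by
    refine mul_le_mul_of_nonneg_right ?_ (abs_nonneg _)
    exact (mul_le_mul_of_nonneg_left hδ1 (hC2 i)).trans (hd3 i).2
  have h5 : D i / 2 * |ξ - η| ≤ Cg i * δ ^ (K + 1) := by linarith
  have h6 : |ξ - η| ≤ 2 / D i * Cg i * δ ^ (K + 1) := by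
    have hDi := hD i
    have : |ξ - η| = 2 / D i * (D i / 2 * |ξ - η|) := by field_simp
    rw [this, mul_assoc]
    exact mul_le_mul_of_nonneg_left h5 (by positivity)
  have h7 : 2 / D i * Cg i ≤ ∑ i, 2 / D i * Cg i :=
    Finset.single_le_sum (f := fun i => 2 / D i * Cg i) (fun j _ => by
      have := hD j; have := hCg j; positivity) (Finset.mem_univ i)
  have e1 : x - t * y * η = (t * y) * (ξ - η) := by
    rw [hξ]; field_simp
  rw [e1, abs_mul, abs_mul]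
  have e2 : δ * |t| = 1 := by rw [hδ]; field_simp
  calc |t| * |y| * |ξ - η| * |t| ^ K = (|y| * |t| ^ (K + 1)) * |ξ - η| := by ring
    _ ≤ (|y| * |t| ^ (K + 1)) * (2 / D i * Cg i * δ ^ (K + 1)) :=
        mul_le_mul_of_nonneg_left h6 (by positivity)
    _ = (2 / D i * Cg i) * |y| * (δ * |t|) ^ (K + 1) := by rw [mul_pow]; ring
    _ = (2 / D i * Cg i) * |y| := by rw [e2, one_pow, mul_one]
    _ ≤ (∑ i, 2 / D i * Cg i) * |y| := mul_le_mul_of_nonneg_right h7 (abs_nonneg _)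

end Pool.Agent.W469.LV1
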