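import Mathlib
import Pool.Agent.W526.LL.Stm

/-! LL-CSPAN: all elements of the span are cuspidal (MP_5ae62c_nt, subtask 703). -/

namespace Pool.Agent.W469.LLCspan

open Pool.Agent.W526.LL
open IsDedekindDomain WithZero Polynomial Topology

section General

variable {A : Type} [AddCommGroup A]

/-- iterated application of `1 + translation` -/
def ann : List A → (A → ℂ) → (A → ℂ)
  | [], F => F
  | x :: l, F => ann l (fun y => F y + F (y + x))

theorem ann_zero (l : List A) : ann l (0 : A → ℂ) = 0 := by
  induction l with
  | nil => rfl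
  | cons x l ih =>
    simp only [ann]
    have : (fun y : A => (0 : A → ℂ) y + (0 : A → ℂ) (y + x)) = 0 := by
      funext y; simp
    rw [this, ih]

theorem ann_add (l : List A) (F G : A → ℂ) : ann l (F + G) = ann l F + ann l G := by
  induction l generalizing F G with
  | nil => rfl
  | cons x l ih =>
    simp only [ann]
    rw [← ih]
    congr 1
    funext y
    simp only [Pi.add_apply]
    ring

theorem ann_smul (l : List A) (c : ℂ) (F : A → ℂ) : ann l (c • F) = c • ann l F := by
  induction l generalizing F with
  | nil => rfl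
  | cons x l ih =>
    simp only [ann]
    rw [← ih]
    congr 1
    funext y
    simp only [Pi.smul_apply, smul_eq_mul]
    ring

theorem ann_comm1 (l : List A) (x : A) (F : A → ℂ) :
    ann l (fun y => F y + F (y + x)) = fun y => ann l F y + ann l F (y + x) := by
  induction l generalizing F with
  | nil => rfl
  | cons z l ih =>
    simp only [ann]
    rw [← ih]
    congr 1
    funext y
    have e : y + x + z = y + z + x := by abel
    rw [e]
    ring

theorem ann_append (l m : List A) (F : A → ℂ) : ann (l ++ m) F = ann m (ann l F) := by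
  induction l generalizing F with
  | nil => rfl
  | cons z l ih => simp only [List.cons_append, ann]; rw [ih]

theorem ann_comm (l m : List A) (F : A → ℂ) : ann l (ann m F) = ann m (ann l F) := by
  induction l generalizing F with
  | nil => rfl
  | cons z l ih =>
    simp only [ann]
    rw [← ih, ← ann_comm1 m]

/-- type A -/
def TA (F : A → ℂ) : Prop := ∃ l : List A, ann l F = 0

theorem TA_zero : TA (0 : A → ℂ) := ⟨[], rfl⟩

theorem TA_add {F G : A → ℂ} (hF : TA F) (hG : TA G) : TA (F + G) := by
  obtain ⟨l, hl⟩ := hF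
  obtain ⟨m, hm⟩ := hG
  refine ⟨l ++ m, ?_⟩
  rw [ann_append, ann_add, hl, zero_add, ann_comm, hm, ann_zero]

theorem TA_smul {F : A → ℂ} (c : ℂ) (hF : TA F) : TA (c • F) := by
  obtain ⟨l, hl⟩ := hF
  exact ⟨l, by rw [ann_smul, hl, smul_zero]⟩

theorem sum_zero (H : AddSubgroup A) (l : List A) (F : A → ℂ)
    (hinv : ∀ y, ∀ ω ∈ H, F (y + ω) = F y) (h0 : ann l F = 0) :
    ∑ᶠ c : A ⧸ H, F (Quotient.out c) = 0 := by
  induction l generalizing F with
  | nil =>
    simp only [ann] at h0
    rw [h0]
    simp
  | cons x l ih =>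
    have hout : ∀ y : A, F (Quotient.out (QuotientAddGroup.mk y : A ⧸ H)) = F y := by
      intro y
      have h1 : (QuotientAddGroup.mk (Quotient.out (QuotientAddGroup.mk y : A ⧸ H)) : A ⧸ H)
          = QuotientAddGroup.mk y := Quotient.out_eq' _
      rw [QuotientAddGroup.eq] at h1
      have h2 := hinv (Quotient.out (QuotientAddGroup.mk y : A ⧸ H)) _ h1
      rw [← h2]
      congr 1
      abel
    have h1 := ih (fun y => F y + F (y + x)) (by
      intro y ω hω
      have e : y + ω + x = y + x + ω := by abel
      simp only [e, hinv _ ω hω]) h0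
    by_cases hfin : (Function.support fun c : A ⧸ H => F (Quotient.out c)).Finite
    · have hcomp : (fun c : A ⧸ H => F (Quotient.out c + x)) =
          fun c : A ⧸ H => F (Quotient.out (Equiv.addRight (QuotientAddGroup.mk x : A ⧸ H) c)) := by
        funext c
        have e : (Equiv.addRight (QuotientAddGroup.mk x : A ⧸ H)) c =
            QuotientAddGroup.mk (Quotient.out c + x) := by
          show c + QuotientAddGroup.mk x = _
          rw [QuotientAddGroup.mk_add]
          congr 1
          exact (Quotient.out_eq' c).symm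
        rw [e, hout]
      have hfin2 : (Function.support fun c : A ⧸ H => F (Quotient.out c + x)).Finite := by
        rw [hcomp]
        exact Set.Finite.preimage (f := Equiv.addRight (QuotientAddGroup.mk x : A ⧸ H))
          (Equiv.injective _).injOn hfin
      rw [finsum_add_distrib hfin hfin2] at h1
      rw [hcomp] at h1
      rw [finsum_comp_equiv (Equiv.addRight (QuotientAddGroup.mk x : A ⧸ H))
        (f := fun c : A ⧸ H => F (Quotient.out c))] at h1
      have : (2 : ℂ) * ∑ᶠ c : A ⧸ H, F (Quotient.out c) = 0 := by rw [two_mul]; exact h1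
      simpa using this
    · exact finsum_of_infinite_support hfin

end General

theorem leftInv_span {f : GA → ℂ} (hf : LeftInv f) :
    ∀ h ∈ Submodule.span ℂ {h | ∃ g, h = rt GA g f}, LeftInv h := by
  intro h hh
  induction hh using Submodule.span_induction with
  | mem x hx =>
    obtain ⟨g₀, rfl⟩ := hx
    intro γ g g' hg
    rw [rt_apply, rt_apply]
    apply hf γ
    intro p
    rw [mul_apply, mul_apply, hg p, mul_assoc]
  | zero => intro γ g g' _; rfl
  | add x y _ _ hx hy =>
    intro γ g g' hg
    rw [Pi.add_apply, Pi.add_apply, hx γ g g' hg, hy γ g g' hg]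
  | smul c x _ hx =>
    intro γ g g' hg
    rw [Pi.smul_apply, Pi.smul_apply, hx γ g g' hg]

theorem TA_span {f : GA → ℂ}
    (hf : ∀ g : GA, ∃ x₀ : AA, ∀ x : AA, f (uni (x + x₀) * g) = - f (uni x * g)) :
    ∀ h ∈ Submodule.span ℂ {h | ∃ g, h = rt GA g f}, ∀ g : GA,
      TA (fun y : AA => h (uni y * g)) := by
  intro h hh
  induction hh using Submodule.span_induction with
  | mem x hx =>
    obtain ⟨g₀, rfl⟩ := hx
    intro g
    obtain ⟨x₀, hx₀⟩ := hf (g * g₀)
    refine ⟨[x₀], ?_⟩
    funext y
    simp only [ann, rt_apply, Pi.zero_apply]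
    rw [mul_assoc, mul_assoc, hx₀ y]
    ring
  | zero => intro g; exact TA_zero
  | add x y _ _ hx hy => intro g; exact TA_add (hx g) (hy g)
  | smul c x _ hx => intro g; exact TA_smul c (hx g)

theorem locK_up (p : Pl) (a : KK) : locK p (up a) = up (cmap p a) := by
  apply ext4 <;> simp [locK, up, Matrix.GeneralLinearGroup.map_apply]

theorem main : S_cspan := by
  intro f hL hf h hh g Ω _ hinv
  obtain ⟨l, hl⟩ := TA_span hf h hh g
  refine sum_zero (diagK ⊔ Ω) l (fun y : AA => h (uni y * g)) ?_ hl
  intro y ω hω
  obtain ⟨a, ha, w, hw, rfl⟩ := AddSubgroup.mem_sup.mp hω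
  obtain ⟨α, hα⟩ := ha
  show h (uni (y + (a + w)) * g) = h (uni y * g)
  rw [← add_assoc, hinv _ w hw]
  apply leftInv_span hL h hh (up α)
  intro p
  rw [mul_apply, mul_apply, uni_apply, uni_apply, locK_up, ← mul_assoc, up_mul, ← hα p, add_comm]
  rfl

end Pool.Agent.W469.LLCspan

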