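import Mathlib
import Pool.Agent.W25.UB.Stm2

/-! Project UB, subtask UB-NWE: modified weights, equality. -/

set_option autoImplicit false

namespace Pool.Agent.W469.UBNWE

open Finset Filter Topology
open Pool.Agent.H410R2 hiding GP GP_prof GP_cut_some GP_cut_none GP_lip gg_pos gg_le_one gg_anti ee_bound ee_nonneg gg_lip LB_gg LB_ee Sums exists_sums yx wx wxi Br sum_GP_none sum_GP_some sum_GP_some_ee sum_GP_some_one sum_GPr_none sum_GPr_some S1_final QI_final S2_final w_abs_le wmax gg ee I1 I2 IE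
open Pool.Agent.H361R2.GM
open Pool.Agent.H362R2.CM
open Pool.Agent.W25.UN
open Pool.Agent.W25.UB

section pa
variable {ι J : Type} [Fintype ι] [DecidableEq ι] [Fintype J] [DecidableEq J]

theorem local_sum' (j : J) (H : Option J → ℝ) (h0 : H none = 1) (hj : H (some j) = -1) (p : ℕ)
    (hp : 2 ≤ p) (u : Option J) :
    ∑ v ∈ univ.filter (fun v : Option J => v ≠ some j), cf p v * H v * psiL j p u v =
      cf p u * H u := by
  have hp1 : (p : ℝ) - 1 ≠ 0 := by
    have : (2 : ℝ) ≤ p := by exact_mod_cast hp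
    linarith
  rw [Finset.sum_filter, Fintype.sum_option]
  rcases u with _ | l
  · simp [psiL, cf, h0]
  · by_cases hl : l = j
    · subst hl
      have h1 : ∑ x : J, (if some x ≠ some l then cf p (some x) * H (some x) *
          psiL l p (some l) (some x) else 0) = 0 := by
        apply Finset.sum_eq_zero
        intro x _
        by_cases hx : x = l
        · simp [hx]
        · have : ¬ l = x := fun h => hx h.symm
          simp [psiL, this]
      rw [h1]
      simp [cf, psiL, h0, hj]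
    · have h1 : ∑ x : J, (if some x ≠ some j then cf p (some x) * H (some x) *
          psiL j p (some l) (some x) else 0) = cf p (some l) * H (some l) := by
        rw [Finset.sum_eq_single l]
        · simp [psiL, hl]
        · intro x _ hx
          have : ¬ l = x := fun h => hx h.symm
          simp [psiL, this]
        · intro h; exact absurd (Finset.mem_univ l) h
      rw [h1]
      simp [psiL, hl]

theorem sum_eq_YY' (j : J) (pr : ι → ℕ) (hp : ∀ t, 2 ≤ pr t) (H : ι → Option J → ℝ)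
    (h0 : ∀ t, H t none = 1) (hj : ∀ t, H t (some j) = -1) (y : (ι → Option J) → ℝ) :
    ∑ σ, cw pr y σ * ∏ t, H t (σ t) =
      ∑ ρ ∈ univ.filter (fun ρ : ι → Option J => ∀ t, ρ t ≠ some j),
        (∏ t, cf (pr t) (ρ t) * H t (ρ t)) * YY j pr y ρ := by
  have h1 : ∑ ρ ∈ univ.filter (fun ρ : ι → Option J => ∀ t, ρ t ≠ some j),
        (∏ t, cf (pr t) (ρ t) * H t (ρ t)) * YY j pr y ρ =
      ∑ τ : ι → Option J, y τ * ∑ ρ ∈ univ.filter (fun ρ : ι → Option J => ∀ t, ρ t ≠ some j),
        ∏ t, (cf (pr t) (ρ t) * H t (ρ t) * psiL j (pr t) (τ t) (ρ t)) := by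
    unfold YY
    simp_rw [Finset.mul_sum]
    rw [Finset.sum_comm]
    refine Finset.sum_congr rfl fun τ _ => Finset.sum_congr rfl fun ρ _ => ?_
    rw [Finset.prod_mul_distrib (f := fun t => cf (pr t) (ρ t) * H t (ρ t))]
    ring
  rw [h1]
  refine Finset.sum_congr rfl fun τ _ => ?_
  rw [sum_avoid j (fun t v => cf (pr t) v * H t v * psiL j (pr t) (τ t) v)]
  rw [Finset.prod_congr rfl fun t _ => local_sum' j (H t) (h0 t) (hj t) (pr t) (hp t) (τ t)]
  unfold cw
  rw [Finset.prod_mul_distrib]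
  ring

theorem sum_ymod' (j : J) (pr : ι → ℕ) (hp : ∀ t, 2 ≤ pr t) (H : ι → Option J → ℝ)
    (h0 : ∀ t, H t none = 1) (hj : ∀ t, H t (some j) = -1) (u y : (ι → Option J) → ℝ)
    (hu : ∀ ρ : ι → Option J, (∀ t, ρ t ≠ some j) → YY j pr u ρ ≠ 0) :
    ∑ σ, cw pr (ymod j pr u y) σ * ∏ t, H t (σ t) = ∑ σ, cw pr y σ * ∏ t, H t (σ t) := by
  rw [sum_eq_YY' j pr hp H h0 hj, sum_eq_YY' j pr hp H h0 hj]
  refine Finset.sum_congr rfl fun ρ hρ => ?_
  have h := (Finset.mem_filter.1 hρ).2
  rw [YY_ymod j pr u y ρ h (hu ρ h)]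

end pa

theorem main : St_NWE := by
  intro k u w P hP
  constructor
  · intro j Λ y n hΛ hn
    unfold FZ
    apply sum_ymod' j (prP P) (fun t => hP t.1 t.2) (fun t => hz u w (prP P t) n)
    · intro t
      rfl
    · intro t
      have h := hn t.1 t.2
      change (if ((prP P t : ℕ) : ℤ) ∣ u j * n + w j then ((prP P t : ℕ) : ℝ) else 0) - 1 = -1
      have h' : ¬ ((prP P t : ℕ) : ℤ) ∣ u j * n + w j := h
      rw [if_neg h']
      norm_num
    · intro ρ hρ
      exact (YY_uj_pos j (prP P) (fun t => hP t.1 t.2) Λ hΛ ρ hρ).ne'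
  · intro Q L n
    unfold wZ FZ
    refine Finset.sum_congr rfl fun σ _ => ?_
    congr 1
    unfold hN
    refine Finset.prod_congr rfl fun t _ => ?_
    rcases σ t with _ | j
    · rfl
    · change (if prP P t ∣ LZ u w j n then (prP P t : ℝ) else 0) - 1 =
        (if ((prP P t : ℕ) : ℤ) ∣ u j * (n : ℤ) + w j then (prP P t : ℝ) else 0) - 1
      have e : prP P t ∣ LZ u w j n ↔ ((prP P t : ℕ) : ℤ) ∣ u j * (n : ℤ) + w j := by
        unfold LZ
        exact Int.natCast_dvd.symm
      by_cases h : prP P t ∣ LZ u w j n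
      · rw [if_pos h, if_pos (e.1 h)]
      · rw [if_neg h, if_neg (fun h' => h (e.2 h'))]

end Pool.Agent.W469.UBNWE
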