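import Mathlib
import Pool.Agent.W757.RD.St4
import Pool.Agent.H790R3.RB.TFAM

/-! RE-FM (MP_8f2e1c_an, subtask 931): the universal family. -/

set_option autoImplicit false

open Topology Filter Metric Set MeasureTheory
open Pool.Agent.H790R3.RB (CV hF cr ND wr rt Ix yx yc)
open Pool.Agent.W757.RD

namespace Pool.Agent.W469.REFM

theorem fam_lt {d : ℕ} (u : Fin (2 * d) → ℂ) (p : Fin 2 × Fin (d + 1)) (h : (p.2 : ℕ) < d)
    (i : Fin (2 * d)) (hi : (i : ℕ) = (p.1 : ℕ) * d + (p.2 : ℕ)) : fam u p = u i := by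
  unfold fam
  rw [dif_pos h]
  congr 1
  exact Fin.ext hi.symm

theorem fam_ge {d : ℕ} (u : Fin (2 * d) → ℂ) (p : Fin 2 × Fin (d + 1)) (h : ¬ (p.2 : ℕ) < d) :
    fam u p = if p.1 = 0 then 1 else 0 := by
  unfold fam
  rw [dif_neg h]

theorem ex_idx {d : ℕ} (p : Fin 2 × Fin (d + 1)) (h : (p.2 : ℕ) < d) :
    ∃ i : Fin (2 * d), (i : ℕ) = (p.1 : ℕ) * d + (p.2 : ℕ) := by
  refine ⟨⟨(p.1 : ℕ) * d + (p.2 : ℕ), ?_⟩, rfl⟩
  have h1 : (p.1 : ℕ) ≤ 1 := Nat.lt_succ_iff.mp p.1.isLt
  have h2 : (p.1 : ℕ) * d ≤ 1 * d := Nat.mul_le_mul_right d h1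
  omega

theorem ex_pair {d : ℕ} (hd : 2 ≤ d) (i : Fin (2 * d)) :
    ∃ p : Fin 2 × Fin (d + 1), (p.2 : ℕ) < d ∧ (i : ℕ) = (p.1 : ℕ) * d + (p.2 : ℕ) := by
  have h1 : (i : ℕ) / d < 2 := by
    apply Nat.div_lt_of_lt_mul
    have := i.2
    omega
  have h2 : (i : ℕ) % d < d := Nat.mod_lt _ (by omega)
  refine ⟨(⟨(i : ℕ) / d, h1⟩, ⟨(i : ℕ) % d, by omega⟩), h2, ?_⟩
  show (i : ℕ) = (i : ℕ) / d * d + (i : ℕ) % d
  exact (Nat.div_add_mod' _ _).symm

theorem fam_diff (d : ℕ) : Differentiable ℂ (fam : (Fin (2 * d) → ℂ) → CV d) := by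
  rw [differentiable_pi]
  intro p
  by_cases h : (p.2 : ℕ) < d
  · obtain ⟨i, hi⟩ := ex_idx p h
    have : (fun u : Fin (2 * d) → ℂ => fam u p) = fun u => u i := by
      funext u; exact fam_lt u p h i hi
    rw [this]
    exact differentiable_apply i
  · have : (fun u : Fin (2 * d) → ℂ => fam u p) = fun _ => if p.1 = 0 then 1 else 0 := by
      funext u; exact fam_ge u p h
    rw [this]
    exact differentiable_const _

theorem wr_cont (d : ℕ) : Continuous (fun x : CV d => wr x ((1 : ℂ), (0 : ℂ))) := by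
  unfold wr
  refine Continuous.sub (Continuous.mul ?_ ?_) (Continuous.mul ?_ ?_)
  all_goals
    refine continuous_finsetSum _ fun j _ => ?_
    exact (continuous_apply _).mul continuous_const

theorem task : Pool.Agent.W757.RD.StFM := by
  intro d hd
  refine ⟨?_, fam_diff d, ?_, ?_, ?_⟩
  · rw [isOpen_iff_mem_nhds]
    intro u hu
    have hc : Continuous (fam : (Fin (2 * d) → ℂ) → CV d) := (fam_diff d).continuous
    have h1 : ∀ᶠ x in 𝓝 (fam u), ND x := Pool.Agent.H790R3.RB.FAM.ND_open hu.1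
    have hw := wr_cont d
    have h2 : ∀ᶠ x in 𝓝 (fam u), wr x (1, 0) ≠ 0 :=
      hw.continuousAt.eventually_ne hu.2
    exact (hc.tendsto u).eventually (h1.and h2)
  · intro u u'
    apply le_antisymm
    · rw [pi_norm_le_iff_of_nonneg (norm_nonneg _)]
      intro p
      rw [Pi.sub_apply]
      by_cases h : (p.2 : ℕ) < d
      · obtain ⟨i, hi⟩ := ex_idx p h
        rw [fam_lt u p h i hi, fam_lt u' p h i hi]
        exact norm_le_pi_norm (u - u') i
      · rw [fam_ge u p h, fam_ge u' p h, sub_self, norm_zero]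
        exact norm_nonneg _
    · rw [pi_norm_le_iff_of_nonneg (norm_nonneg _)]
      intro i
      obtain ⟨p, hp, hi⟩ := ex_pair hd i
      rw [Pi.sub_apply, ← fam_lt u p hp i hi, ← fam_lt u' p hp i hi]
      exact norm_le_pi_norm (fam u - fam u') p
  · intro u
    constructor
    · rw [fam_ge _ _ (by simp)]; simp
    · rw [fam_ge _ _ (by simp)]; simp
  · intro x hx
    choose p hp hi using fun i : Fin (2 * d) => ex_pair hd i
    refine ⟨fun i => x (p i), ?_⟩
    funext q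
    by_cases h : (q.2 : ℕ) < d
    · obtain ⟨i, hi'⟩ := ex_idx q h
      rw [fam_lt _ q h i hi']
      congr 1
      have h1 := hi i
      rw [hi'] at h1
      have h2 := hp i
      have hd0 : 0 < d := by omega
      have e1 : (q.1 : ℕ) = ((p i).1 : ℕ) := by
        have a1 : ((q.1 : ℕ) * d + (q.2 : ℕ)) / d = (q.1 : ℕ) := by
          rw [mul_comm, Nat.mul_add_div hd0, Nat.div_eq_of_lt h, add_zero]
        have a2 : (((p i).1 : ℕ) * d + ((p i).2 : ℕ)) / d = ((p i).1 : ℕ) := by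
          rw [mul_comm, Nat.mul_add_div hd0, Nat.div_eq_of_lt h2, add_zero]
        rw [← a1, h1, a2]
      have e2 : (q.2 : ℕ) = ((p i).2 : ℕ) := by rw [e1] at h1; omega
      exact Prod.ext (Fin.ext e1.symm) (Fin.ext e2.symm)
    · rw [fam_ge _ q h]
      have hq2 : q.2 = Fin.last d := by
        apply Fin.ext
        have := q.2.2
        simp only [Fin.val_last]; omega
      have hq : q = (q.1, Fin.last d) := by rw [← hq2]
      rcases Fin.exists_fin_two.mp ⟨q.1, rfl⟩ with h0 | h1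
      · have e : q = (0, Fin.last d) := by rw [← hq2, ← h0]
        rw [if_pos h0, e]; exact hx.1.symm
      · have e : q = (1, Fin.last d) := by rw [← hq2, ← h1]
        rw [if_neg (by rw [h1]; exact one_ne_zero), e]; exact hx.2.symm

end Pool.Agent.W469.REFM
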