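import Mathlib
import Pool.Agent.W757.RD.St

/-! RE-POLE (MP_8f2e1c_an, subtask 915): locally bounded poles. -/

set_option autoImplicit false

open Topology Filter Metric Set MeasureTheory
open Pool.Agent.H790R3.RB (CV hF cr ND wr rt Ix yx yc)

namespace Pool.Agent.W469.REPOLE

theorem root_bound (e : ℕ) (c : Fin (e + 3) → ℂ) (hlast : c (Fin.last (e + 2)) = 0)
    (ha : c (Fin.last (e + 1)).castSucc ≠ 0) :
    ∃ ζ : ℂ, ∑ j : Fin (e + 3), c j * ζ ^ (j : ℕ) = 0 ∧
      ‖ζ‖ ≤ 1 + (∑ j, ‖c j‖) / ‖c (Fin.last (e + 1)).castSucc‖ := by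
  set a : ℂ := c (Fin.last (e + 1)).castSucc with ha'
  set P : Polynomial ℂ := ∑ j : Fin (e + 3), Polynomial.C (c j) * Polynomial.X ^ (j : ℕ) with hP
  have hcoef : P.coeff (e + 1) = a := by
    rw [hP, Polynomial.finsetSum_coeff]
    rw [Finset.sum_eq_single (Fin.last (e + 1)).castSucc]
    · simp [ha']
    · intro j _ hj
      rw [Polynomial.coeff_C_mul, Polynomial.coeff_X_pow]
      have : e + 1 ≠ (j : ℕ) := by
        intro h
        apply hj
        apply Fin.ext
        simp [← h]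
      rw [if_neg this, mul_zero]
    · intro h; exact absurd (Finset.mem_univ _) h
  have hdeg : 0 < P.degree := by
    have h1 : ((e + 1 : ℕ) : WithBot ℕ) ≤ P.degree := Polynomial.le_degree_of_ne_zero (by
      rw [hcoef]; exact ha)
    refine lt_of_lt_of_le ?_ h1
    exact_mod_cast Nat.succ_pos e
  obtain ⟨ζ, hζ⟩ := Complex.exists_root hdeg
  have hev : ∑ j : Fin (e + 3), c j * ζ ^ (j : ℕ) = 0 := by
    have h := hζ
    rw [Polynomial.IsRoot.def, hP, Polynomial.eval_finsetSum] at h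
    simpa using h
  refine ⟨ζ, hev, ?_⟩
  have hS : 0 ≤ ∑ j, ‖c j‖ := Finset.sum_nonneg fun _ _ => norm_nonneg _
  have hapos : 0 < ‖a‖ := norm_pos_iff.mpr ha
  rcases le_or_gt ‖ζ‖ 1 with h1 | h1
  · have : 0 ≤ (∑ j, ‖c j‖) / ‖a‖ := by positivity
    linarith
  · have h2 := hev
    rw [Fin.sum_univ_castSucc, hlast, zero_mul, add_zero, Fin.sum_univ_castSucc] at h2
    have h3 : a * ζ ^ (e + 1) = - ∑ j : Fin (e + 1), c j.castSucc.castSucc * ζ ^ (j : ℕ) := by
      rw [eq_neg_iff_add_eq_zero, add_comm]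
      simpa using h2
    have h4 : ‖a‖ * ‖ζ‖ ^ (e + 1) ≤ (∑ j, ‖c j‖) * ‖ζ‖ ^ e := by
      calc ‖a‖ * ‖ζ‖ ^ (e + 1) = ‖a * ζ ^ (e + 1)‖ := by rw [norm_mul, norm_pow]
        _ = ‖∑ j : Fin (e + 1), c j.castSucc.castSucc * ζ ^ (j : ℕ)‖ := by rw [h3, norm_neg]
        _ ≤ ∑ j : Fin (e + 1), ‖c j.castSucc.castSucc * ζ ^ (j : ℕ)‖ := norm_sum_le _ _
        _ ≤ ∑ j : Fin (e + 1), ‖c j.castSucc.castSucc‖ * ‖ζ‖ ^ e := by
            apply Finset.sum_le_sum
            intro j _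
            rw [norm_mul, norm_pow]
            exact mul_le_mul_of_nonneg_left (pow_le_pow_right₀ h1.le (Nat.lt_succ_iff.mp j.2))
              (norm_nonneg _)
        _ = (∑ j : Fin (e + 1), ‖c j.castSucc.castSucc‖) * ‖ζ‖ ^ e := by rw [Finset.sum_mul]
        _ ≤ (∑ j, ‖c j‖) * ‖ζ‖ ^ e := by
            refine mul_le_mul_of_nonneg_right ?_ (by positivity)
            rw [Fin.sum_univ_castSucc (n := e + 2), Fin.sum_univ_castSucc (n := e + 1)]
            have := norm_nonneg (c (Fin.last (e + 2)))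
            have := norm_nonneg (c (Fin.last (e + 1)).castSucc)
            linarith
    have hz : 0 < ‖ζ‖ ^ e := by positivity
    have h5 : ‖a‖ * ‖ζ‖ ≤ ∑ j, ‖c j‖ := by
      rw [pow_succ', ← mul_assoc] at h4
      exact le_of_mul_le_mul_right h4 hz
    have h6 : ‖ζ‖ ≤ (∑ j, ‖c j‖) / ‖a‖ := by
      rw [le_div_iff₀ hapos, mul_comm]; exact h5
    linarith

theorem hF_inf {e : ℕ} (x : CV (e + 2)) : (hF x (1, 0)).2 = x (1, Fin.last (e + 2)) := by
  simp only [hF, one_pow, one_mul]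
  rw [Fin.sum_univ_castSucc, Finset.sum_eq_zero]
  · simp
  · intro j _
    have : e + 2 - (j.castSucc : ℕ) ≠ 0 := by
      have := j.2
      simp only [Fin.val_castSucc]; omega
    rw [zero_pow this, mul_zero]

theorem wr_inf {e : ℕ} (x : CV (e + 2)) (hx : x (1, Fin.last (e + 2)) = 0)
    (h : x (1, (Fin.last (e + 1)).castSucc) = 0) : wr x (1, 0) = 0 := by
  have h2 : (∑ j : Fin (e + 2 + 1), x (1, j) * (((e + 2 - (j : ℕ) : ℕ) : ℂ) * (1 : ℂ) ^ (j : ℕ) *
      (0 : ℂ) ^ (e + 2 - (j : ℕ) - 1))) = 0 := by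
    apply Finset.sum_eq_zero
    intro j _
    induction j using Fin.lastCases with
    | last => simp
    | cast j =>
      induction j using Fin.lastCases with
      | last => rw [h, zero_mul]
      | cast j =>
        have : e + 2 - (j.castSucc.castSucc : ℕ) - 1 ≠ 0 := by
          have := j.2
          simp only [Fin.val_castSucc]; omega
        rw [zero_pow this, mul_zero, mul_zero]
  have h4 : (∑ j : Fin (e + 2 + 1), x (1, j) * (((j : ℕ) : ℂ) * (1 : ℂ) ^ ((j : ℕ) - 1) *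
      (0 : ℂ) ^ (e + 2 - (j : ℕ)))) = 0 := by
    apply Finset.sum_eq_zero
    intro j _
    induction j using Fin.lastCases with
    | last => rw [hx, zero_mul]
    | cast j =>
      have : e + 2 - (j.castSucc : ℕ) ≠ 0 := by
        have := j.2
        simp only [Fin.val_castSucc]; omega
      rw [zero_pow this, mul_zero, mul_zero]
  unfold wr
  rw [h2, h4, mul_zero, mul_zero, sub_zero]

theorem task : Pool.Agent.W757.RD.StPOLE := by
  intro d n s S C hC hCU
  obtain ⟨e, rfl⟩ : ∃ e, d = e + 2 := ⟨d - 2, by have := S.hd; omega⟩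
  have hcont : ContinuousOn S.co C := S.hco.continuousOn.mono hCU
  have hl : ∀ x ∈ C, S.co x (1, Fin.last (e + 2)) = 0 := by
    intro x hx
    rw [← hF_inf (S.co x)]; exact S.hinf x (hCU hx)
  have hne : ∀ x ∈ C, S.co x (1, (Fin.last (e + 1)).castSucc) ≠ 0 := by
    intro x hx h
    exact S.hwr x (hCU hx) (wr_inf _ (hl x hx) h)
  have hc : ∀ j, ContinuousOn (fun x => S.co x j) C := by
    intro j
    exact (continuous_apply j).comp_continuousOn hcont
  have hf : ContinuousOn (fun x => 1 + (∑ j : Fin (e + 3), ‖S.co x (1, j)‖) /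
      ‖S.co x (1, (Fin.last (e + 1)).castSucc)‖) C := by
    refine continuousOn_const.add (ContinuousOn.div ?_ (hc _).norm ?_)
    · exact continuousOn_finsetSum _ fun j _ => (hc _).norm
    · intro x hx
      exact norm_ne_zero_iff.mpr (hne x hx)
  obtain ⟨B, hB⟩ := hC.exists_bound_of_continuousOn hf
  refine ⟨B, fun x hx => ?_⟩
  obtain ⟨ζ, hζ, hb⟩ := root_bound e (fun j => S.co x (1, j)) (hl x hx) (hne x hx)
  refine ⟨ζ, ?_, hb.trans ((le_abs_self _).trans (hB x hx))⟩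
  show (hF (S.co x) (ζ, 1)).2 = 0
  simp only [hF, one_pow, mul_one]
  exact hζ

end Pool.Agent.W469.REPOLE
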