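import Pool.Agent.W469.A30Data

/-! The kernel computation: the matrix of size 217 is invertible modulo 223. -/

set_option autoImplicit false

namespace Pool.Agent.W469.A30

/-- sum of `f 0, ..., f (n-1)` -/
def nsum (n : ℕ) (f : ℕ → ℕ) : ℕ := Nat.rec 0 (fun i acc => acc + f i) n

/-- `f 0, ..., f (n-1)` are all true -/
def allB (n : ℕ) (f : ℕ → Bool) : Bool := Nat.rec true (fun i acc => (f i).and acc) n

def bT (i h : ℕ) : ℕ := (bLit >>> (4 * (6 * i + h))) % 16
def cT (j i : ℕ) : ℕ := (cLit >>> (4 * (5 * j + i))) % 16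
def zT (s i : ℕ) : ℕ := (zLit >>> (8 * (5 * s + i))) % 256
def lT (s j : ℕ) : ℕ := (lLit >>> (8 * (38 * s + j))) % 256
def fT (s i : ℕ) : ℕ := (fLit >>> (8 * (5 * s + i))) % 256

def chkZ : Bool := allB 217 fun s => allB 5 fun i =>
  Nat.beq (nsum 6 (fun h => bT i h * (1 + h * s) ^ 6) % 223) (zT s i)

def chkL : Bool := allB 217 fun s => allB 38 fun j =>
  Nat.beq (nsum 5 (fun i => cT j i * zT s i ^ 6) % 223) (lT s j)

def chkF : Bool := allB 217 fun s => allB 5 fun i =>
  Nat.beq (nsum 38 (fun j => cT j i * lT s j ^ 5) % 223) (fT s i)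

set_option maxRecDepth 100000 in
theorem chkZ_true : chkZ = true := by decide +kernel

set_option maxRecDepth 100000 in
theorem chkL_true : chkL = true := by decide +kernel

set_option maxRecDepth 100000 in
theorem chkF_true : chkF = true := by decide +kernel

def kE (s r : ℕ) : ℕ :=
  bif Nat.blt r 186 then (6 * lT s (r / 5) ^ 5 * zT s (r % 5) ^ 6) % 223
  else bif Nat.blt r 211 then
    (36 * fT s ((r - 186) / 5) * zT s ((r - 186) / 5) ^ 5 * (1 + ((r - 186) % 5 + 1) * s) ^ 6) % 223
  else (216 * nsum 5 (fun i => fT s i * zT s i ^ 5 * bT i (r - 211)) * (1 + (r - 211) * s) ^ 5 * s)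
    % 223

def pack (s : ℕ) : ℕ := nsum 217 (fun r => kE s r * 2 ^ (24 * r))

def invRow (k : ℕ) : ℕ := invLit.getD k 0

def invT (k s : ℕ) : ℕ := (invRow k >>> (8 * s)) % 256

def dot (k : ℕ) : ℕ := nsum 217 (fun s => invT k s * pack s)

def slots (k S : ℕ) : Bool := allB 217 fun r =>
  Nat.beq ((S >>> (24 * r)) % 16777216 % 223) (bif Nat.beq r k then 1 else 0)

def chkRow (k : ℕ) : Bool := slots k (dot k)

set_option maxRecDepth 100000 in
theorem chkRow_true : allB 217 chkRow = true := by decide +kernel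

/-! ### correctness -/

theorem nsum_eq (n : ℕ) (f : ℕ → ℕ) : nsum n f = ∑ i ∈ Finset.range n, f i := by
  induction n with
  | zero => rfl
  | succ n ih =>
    rw [Finset.sum_range_succ, ← ih]
    rfl

theorem allB_iff (n : ℕ) (f : ℕ → Bool) : allB n f = true ↔ ∀ i < n, f i = true := by
  induction n with
  | zero => simp [allB]
  | succ n ih =>
    have : allB (n + 1) f = ((f n).and (allB n f)) := rfl
    rw [this, Bool.and_eq_true, ih]
    constructor
    · rintro ⟨h1, h2⟩ i hi
      rcases Nat.lt_succ_iff_lt_or_eq.mp hi with h | h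
      · exact h2 i h
      · rw [h]; exact h1
    · intro h
      exact ⟨h n (Nat.lt_succ_self n), fun i hi => h i (Nat.lt_succ_of_lt hi)⟩

def zN (s i : ℕ) : ℕ := ∑ h ∈ Finset.range 6, bT i h * (1 + h * s) ^ 6
def lN (s j : ℕ) : ℕ := ∑ i ∈ Finset.range 5, cT j i * zN s i ^ 6
def fN (s i : ℕ) : ℕ := ∑ j ∈ Finset.range 38, cT j i * lN s j ^ 5

def KN (s r : ℕ) : ℕ :=
  if r < 186 then 6 * lN s (r / 5) ^ 5 * zN s (r % 5) ^ 6
  else if r < 211 then
    36 * fN s ((r - 186) / 5) * zN s ((r - 186) / 5) ^ 5 * (1 + ((r - 186) % 5 + 1) * s) ^ 6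
  else 216 * (∑ i ∈ Finset.range 5, fN s i * zN s i ^ 5 * bT i (r - 211)) *
    (1 + (r - 211) * s) ^ 5 * s

theorem cast_eq_of_mod {a b : ℕ} (h : a % 223 = b) : ((a : ℕ) : ZMod 223) = (b : ZMod 223) := by
  rw [← h, ZMod.natCast_mod]

theorem zN_cast (s i : ℕ) (hs : s < 217) (hi : i < 5) : (zN s i : ZMod 223) = (zT s i : ZMod 223) := by
  have h := chkZ_true
  unfold chkZ at h
  rw [allB_iff] at h
  have h1 := h s hs
  rw [allB_iff] at h1
  have h2 := Nat.eq_of_beq_eq_true (h1 i hi)
  rw [nsum_eq] at h2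
  exact cast_eq_of_mod h2

theorem lN_cast (s j : ℕ) (hs : s < 217) (hj : j < 38) :
    (lN s j : ZMod 223) = (lT s j : ZMod 223) := by
  have h := chkL_true
  unfold chkL at h
  rw [allB_iff] at h
  have h1 := h s hs
  rw [allB_iff] at h1
  have h2 := Nat.eq_of_beq_eq_true (h1 j hj)
  rw [nsum_eq] at h2
  rw [← cast_eq_of_mod h2]
  unfold lN
  push_cast
  refine Finset.sum_congr rfl fun i hi => ?_
  rw [zN_cast s i hs (Finset.mem_range.mp hi)]

theorem fN_cast (s i : ℕ) (hs : s < 217) (hi : i < 5) :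
    (fN s i : ZMod 223) = (fT s i : ZMod 223) := by
  have h := chkF_true
  unfold chkF at h
  rw [allB_iff] at h
  have h1 := h s hs
  rw [allB_iff] at h1
  have h2 := Nat.eq_of_beq_eq_true (h1 i hi)
  rw [nsum_eq] at h2
  rw [← cast_eq_of_mod h2]
  unfold fN
  push_cast
  refine Finset.sum_congr rfl fun j hj => ?_
  rw [lN_cast s j hs (Finset.mem_range.mp hj)]

theorem kE_cast (s r : ℕ) (hs : s < 217) (hr : r < 217) :
    (KN s r : ZMod 223) = (kE s r : ZMod 223) := by
  unfold KN kE
  by_cases h1 : r < 186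
  · have hb : Nat.blt r 186 = true := by simpa using h1
    rw [if_pos h1, hb, cond_true, ZMod.natCast_mod]
    push_cast
    rw [lN_cast s _ hs (by omega), zN_cast s _ hs (by omega)]
  · have hb : Nat.blt r 186 = false := by
      rw [Bool.eq_false_iff]; simpa using h1
    rw [if_neg h1, hb, cond_false]
    by_cases h2 : r < 211
    · have hb2 : Nat.blt r 211 = true := by simpa using h2
      rw [if_pos h2, hb2, cond_true, ZMod.natCast_mod]
      push_cast
      rw [fN_cast s _ hs (by omega), zN_cast s _ hs (by omega)]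
    · have hb2 : Nat.blt r 211 = false := by
        rw [Bool.eq_false_iff]; simpa using h2
      rw [if_neg h2, hb2, cond_false, ZMod.natCast_mod, nsum_eq]
      push_cast
      have : ∑ x ∈ Finset.range 5, (fN s x : ZMod 223) * (zN s x : ZMod 223) ^ 5 *
            (bT x (r - 211) : ZMod 223) =
          ∑ x ∈ Finset.range 5, (fT s x : ZMod 223) * (zT s x : ZMod 223) ^ 5 *
            (bT x (r - 211) : ZMod 223) := by
        refine Finset.sum_congr rfl fun i hi => ?_
        rw [fN_cast s i hs (Finset.mem_range.mp hi), zN_cast s i hs (Finset.mem_range.mp hi)]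
      rw [this]

theorem slot_lemma (f : ℕ → ℕ) (X : ℕ) (hf : ∀ r, f r < X) (n k : ℕ) (hk : k < n) :
    (∑ r ∈ Finset.range n, f r * X ^ r) / X ^ k % X = f k := by
  have hX : 0 < X := lt_of_le_of_lt (Nat.zero_le _) (hf 0)
  have hlow : ∀ m, ∑ r ∈ Finset.range m, f r * X ^ r < X ^ m := by
    intro m
    induction m with
    | zero => simp
    | succ m ih =>
      rw [Finset.sum_range_succ, pow_succ]
      have h1 : f m + 1 ≤ X := hf m
      calc _ < X ^ m + f m * X ^ m := by omega
        _ = (f m + 1) * X ^ m := by ring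
        _ ≤ X * X ^ m := Nat.mul_le_mul_right _ h1
        _ = X ^ m * X := by ring
  obtain ⟨m, rfl⟩ : ∃ m, n = k + 1 + m := ⟨n - (k + 1), by omega⟩
  rw [Finset.sum_range_add, Finset.sum_range_succ]
  have h2 : ∑ x ∈ Finset.range m, f (k + 1 + x) * X ^ (k + 1 + x) =
      X ^ k * (X * ∑ x ∈ Finset.range m, f (k + 1 + x) * X ^ x) := by
    rw [Finset.mul_sum, Finset.mul_sum]
    refine Finset.sum_congr rfl fun x _ => ?_
    rw [pow_add, pow_succ]
    ring
  rw [h2]
  have h3 : ∑ r ∈ Finset.range k, f r * X ^ r + f k * X ^ k +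
      X ^ k * (X * ∑ x ∈ Finset.range m, f (k + 1 + x) * X ^ x) =
      ∑ r ∈ Finset.range k, f r * X ^ r + X ^ k * (f k +
        X * ∑ x ∈ Finset.range m, f (k + 1 + x) * X ^ x) := by ring
  rw [h3, Nat.add_mul_div_left _ _ (pow_pos hX k), Nat.div_eq_of_lt (hlow k), zero_add,
    Nat.add_mul_mod_self_left, Nat.mod_eq_of_lt (hf k)]

theorem kE_lt (s r : ℕ) : kE s r < 223 := by
  unfold kE
  cases Nat.blt r 186 <;> cases Nat.blt r 211 <;> simp only [cond_true, cond_false] <;>
    exact Nat.mod_lt _ (by norm_num)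

theorem invT_lt (k s : ℕ) : invT k s < 256 := Nat.mod_lt _ (by norm_num)

theorem dot_eq (k : ℕ) : dot k = ∑ r ∈ Finset.range 217,
    (∑ s ∈ Finset.range 217, invT k s * kE s r) * (2 ^ 24) ^ r := by
  unfold dot pack
  rw [nsum_eq]
  have : ∀ s, invT k s * nsum 217 (fun r => kE s r * 2 ^ (24 * r)) =
      ∑ r ∈ Finset.range 217, invT k s * kE s r * (2 ^ 24) ^ r := by
    intro s
    rw [nsum_eq, Finset.mul_sum]
    refine Finset.sum_congr rfl fun r _ => ?_
    rw [pow_mul, mul_assoc]
  rw [Finset.sum_congr rfl fun s _ => this s, Finset.sum_comm]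
  refine Finset.sum_congr rfl fun r _ => ?_
  rw [Finset.sum_mul]

theorem inv_mul (k r : ℕ) (hk : k < 217) (hr : r < 217) :
    ∑ s ∈ Finset.range 217, (invT k s : ZMod 223) * (KN s r : ZMod 223) =
      if r = k then 1 else 0 := by
  have h := chkRow_true
  rw [allB_iff] at h
  have h1 := h k hk
  unfold chkRow slots at h1
  rw [allB_iff] at h1
  have h2 := Nat.eq_of_beq_eq_true (h1 r hr)
  have hbound : ∀ r, (∑ s ∈ Finset.range 217, invT k s * kE s r) < 2 ^ 24 := by
    intro r
    have : ∑ s ∈ Finset.range 217, invT k s * kE s r ≤ ∑ s ∈ Finset.range 217, 255 * 222 := by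
      refine Finset.sum_le_sum fun s _ => Nat.mul_le_mul ?_ ?_
      · have := invT_lt k s; omega
      · have := kE_lt s r; omega
    rw [Finset.sum_const, Finset.card_range] at this
    norm_num at this ⊢
    omega
  have h3 : (dot k >>> (24 * r)) % 16777216 = ∑ s ∈ Finset.range 217, invT k s * kE s r := by
    rw [dot_eq, Nat.shiftRight_eq_div_pow, pow_mul]
    exact slot_lemma (fun r => ∑ s ∈ Finset.range 217, invT k s * kE s r) (2 ^ 24) hbound 217 r hr
  rw [h3] at h2
  have h4 := cast_eq_of_mod h2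
  push_cast at h4
  have h5 : ∑ s ∈ Finset.range 217, (invT k s : ZMod 223) * (KN s r : ZMod 223) =
      ∑ s ∈ Finset.range 217, (invT k s : ZMod 223) * (kE s r : ZMod 223) := by
    refine Finset.sum_congr rfl fun s hs => ?_
    rw [kE_cast s r (Finset.mem_range.mp hs) hr]
  rw [h5, h4]
  by_cases hrk : r = k
  · subst hrk
    simp
  · have : Nat.beq r k = false := by
      rw [Bool.eq_false_iff]
      intro hh
      exact hrk (Nat.eq_of_beq_eq_true hh)
    rw [this, if_neg hrk]
    simp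

theorem det_ne_zero :
    (Matrix.of fun (s r : Fin 217) => ((KN s r : ℕ) : ℤ)).det ≠ 0 := by
  intro h
  have h1 : (Matrix.of fun (s r : Fin 217) => ((KN s r : ℕ) : ZMod 223)).det = 0 := by
    have := congrArg (Int.castRingHom (ZMod 223)) h
    rw [RingHom.map_det, map_zero] at this
    rw [← this]
    refine congrArg Matrix.det ?_
    ext s r
    simp
  have h2 : (Matrix.of fun (k s : Fin 217) => ((invT k s : ℕ) : ZMod 223)) *
      (Matrix.of fun (s r : Fin 217) => ((KN s r : ℕ) : ZMod 223)) = 1 := by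
    ext k r
    rw [Matrix.mul_apply]
    simp only [Matrix.of_apply]
    rw [Fin.sum_univ_eq_sum_range (fun s => ((invT k s : ℕ) : ZMod 223) * ((KN s r : ℕ) : ZMod 223)),
      inv_mul k r k.2 r.2, Matrix.one_apply]
    by_cases hkr : k = r
    · subst hkr; simp
    · rw [if_neg hkr, if_neg]
      intro hh
      exact hkr (Fin.ext hh.symm)
  have h3 := congrArg Matrix.det h2
  rw [Matrix.det_mul, h1, mul_zero, Matrix.det_one] at h3
  have : (1 : ZMod 223) ≠ 0 := by decide
  exact this h3.symm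

end Pool.Agent.W469.A30
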