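import Pool.Agent.W469.A30Net
import Pool.Agent.W469.A30Cert

/-! The network of widths `(2, 6, 5, 38, 1)` with activation degree 6 is filling. -/

set_option autoImplicit false

namespace Pool.Agent.W469.A30

open MvPolynomial Finset

/-- extension by zero -/
noncomputable def ex (u : Fin 217 → ℂ) (n : ℕ) : ℂ := if h : n < 217 then u ⟨n, h⟩ else 0

noncomputable def ua (u : Fin 217 → ℂ) (h : ℕ) : ℂ := ex u (211 + h)
noncomputable def ub (u : Fin 217 → ℂ) (i h : ℕ) : ℂ := if h = 0 then 0 else ex u (186 + (5 * i + (h - 1)))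
noncomputable def uc (u : Fin 217 → ℂ) (j i : ℕ) : ℂ := if 5 * j + i < 186 then ex u (5 * j + i) else 0

/-- the weights at the parameter `u` -/
noncomputable def WW (u : Fin 217 → ℂ) : Fin 4 → ℕ → ℕ → ℂ := fun l x y =>
  match l with
  | 0 => if y = 0 then 1 else (x : ℂ) + ua u x
  | 1 => (bT x y : ℂ) + ub u x y
  | 2 => (cT x y : ℂ) + uc u x y
  | 3 => if x = 0 then 1 else 0

noncomputable def Th (u : Fin 217 → ℂ) (t : ℂ) : ℂ :=
  ∑ j ∈ range 38, (∑ i ∈ range 5, ((cT j i : ℂ) + uc u j i) *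
    (∑ h ∈ range 6, ((bT i h : ℂ) + ub u i h) * (1 + ((h : ℂ) + ua u h) * t) ^ 6) ^ 6) ^ 6

theorem eval_WW (u : Fin 217 → ℂ) (t : ℂ) :
    eval (fun n => if n = 0 then 1 else t) (net 6 5 38 (WW u) 0) = Th u t := by
  rw [eval_net']
  simp [WW, Th]

theorem ex_smul (τ : ℂ) (v : Fin 217 → ℂ) (n : ℕ) : ex (τ • v) n = τ * ex v n := by
  unfold ex
  split_ifs <;> simp

theorem ua_smul (τ : ℂ) (v : Fin 217 → ℂ) (h : ℕ) : ua (τ • v) h = τ * ua v h := ex_smul _ _ _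

theorem ub_smul (τ : ℂ) (v : Fin 217 → ℂ) (i h : ℕ) : ub (τ • v) i h = τ * ub v i h := by
  unfold ub
  split_ifs
  · simp
  · exact ex_smul _ _ _

theorem uc_smul (τ : ℂ) (v : Fin 217 → ℂ) (j i : ℕ) : uc (τ • v) j i = τ * uc v j i := by
  unfold uc
  split_ifs
  · exact ex_smul _ _ _
  · simp

theorem contDiff_ex (n : ℕ) : ContDiff ℂ 1 (fun u : Fin 217 → ℂ => ex u n) := by
  unfold ex
  by_cases h : n < 217
  · simp only [dif_pos h]
    exact contDiff_apply ℂ ℂ _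
  · simp only [dif_neg h]
    exact contDiff_const

theorem contDiff_Th (t : ℂ) : ContDiff ℂ 1 (fun u : Fin 217 → ℂ => Th u t) := by
  have ha : ∀ h, ContDiff ℂ 1 (fun u : Fin 217 → ℂ => ua u h) := fun h => contDiff_ex _
  have hb : ∀ i h, ContDiff ℂ 1 (fun u : Fin 217 → ℂ => ub u i h) := fun i h => by
    unfold ub
    by_cases h0 : h = 0
    · simp only [if_pos h0]; exact contDiff_const
    · simp only [if_neg h0]; exact contDiff_ex _
  have hc : ∀ j i, ContDiff ℂ 1 (fun u : Fin 217 → ℂ => uc u j i) := fun j i => by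
    unfold uc
    by_cases h0 : 5 * j + i < 186
    · simp only [if_pos h0]; exact contDiff_ex _
    · simp only [if_neg h0]; exact contDiff_const
  unfold Th
  refine ContDiff.sum fun j _ => ContDiff.pow ?_ 6
  refine ContDiff.sum fun i _ => ContDiff.mul (contDiff_const.add (hc j i)) (ContDiff.pow ?_ 6)
  refine ContDiff.sum fun h _ => ContDiff.mul (contDiff_const.add (hb i h)) (ContDiff.pow ?_ 6)
  exact contDiff_const.add ((contDiff_const.add (ha h)).mul contDiff_const)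

noncomputable def Zc (t : ℂ) (i : ℕ) : ℂ := ∑ h ∈ range 6, (bT i h : ℂ) * (1 + (h : ℂ) * t) ^ 6

noncomputable def Sc (v : Fin 217 → ℂ) (t : ℂ) (i : ℕ) : ℂ :=
  ∑ h ∈ range 6, (ub v i h * (1 + (h : ℂ) * t) ^ 6 +
    (bT i h : ℂ) * (6 * (1 + (h : ℂ) * t) ^ 5 * (ua v h * t)))

noncomputable def DD (v : Fin 217 → ℂ) (t : ℂ) : ℂ :=
  ∑ j ∈ range 38, 6 * (∑ i ∈ range 5, (cT j i : ℂ) * Zc t i ^ 6) ^ 5 *
    (∑ i ∈ range 5, (uc v j i * Zc t i ^ 6 + (cT j i : ℂ) * (6 * Zc t i ^ 5 * Sc v t i)))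

theorem pow6_deriv {f : ℂ → ℂ} {f' f0 : ℂ} (hf : HasDerivAt f f' 0) (h0 : f 0 = f0) :
    HasDerivAt (fun τ => (f τ) ^ 6) (6 * f0 ^ 5 * f') 0 := by
  have := hf.fun_pow 6
  rw [h0] at this
  simpa using this

theorem lin_deriv {f : ℂ → ℂ} {f' f0 : ℂ} (a b : ℂ) (hf : HasDerivAt f f' 0) (h0 : f 0 = f0) :
    HasDerivAt (fun τ => (a + τ * b) * f τ) (b * f0 + a * f') 0 := by
  have h1 : HasDerivAt (fun τ : ℂ => a + τ * b) b 0 := by
    have := ((hasDerivAt_id (0 : ℂ)).mul_const b).const_add a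
    simpa using this
  have := h1.fun_mul hf
  rw [h0] at this
  simpa using this

theorem hasDeriv_Th (v : Fin 217 → ℂ) (t : ℂ) :
    HasDerivAt (fun τ : ℂ => Th (τ • v) t) (DD v t) 0 := by
  have hA : ∀ h : ℕ, HasDerivAt (fun τ : ℂ => (1 + ((h : ℂ) + τ * ua v h) * t) ^ 6)
      (6 * (1 + (h : ℂ) * t) ^ 5 * (ua v h * t)) 0 := by
    intro h
    refine pow6_deriv (f := fun τ : ℂ => 1 + ((h : ℂ) + τ * ua v h) * t) ?_ (by simp)
    have := ((((hasDerivAt_id (0 : ℂ)).mul_const (ua v h)).const_add (h : ℂ)).mul_const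
      t).const_add (1 : ℂ)
    simpa using this
  have hB : ∀ i : ℕ, HasDerivAt (fun τ : ℂ => ∑ h ∈ range 6, ((bT i h : ℂ) + τ * ub v i h) *
      (1 + ((h : ℂ) + τ * ua v h) * t) ^ 6) (Sc v t i) 0 := by
    intro i
    refine HasDerivAt.fun_sum fun h _ => ?_
    exact lin_deriv _ _ (hA h) (by simp)
  have hC : ∀ i : ℕ, HasDerivAt (fun τ : ℂ => (∑ h ∈ range 6, ((bT i h : ℂ) + τ * ub v i h) *
      (1 + ((h : ℂ) + τ * ua v h) * t) ^ 6) ^ 6) (6 * Zc t i ^ 5 * Sc v t i) 0 := by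
    intro i
    exact pow6_deriv (hB i) (by simp [Zc])
  have hD : ∀ j : ℕ, HasDerivAt (fun τ : ℂ => ∑ i ∈ range 5, ((cT j i : ℂ) + τ * uc v j i) *
      (∑ h ∈ range 6, ((bT i h : ℂ) + τ * ub v i h) *
      (1 + ((h : ℂ) + τ * ua v h) * t) ^ 6) ^ 6)
      (∑ i ∈ range 5, (uc v j i * Zc t i ^ 6 + (cT j i : ℂ) * (6 * Zc t i ^ 5 * Sc v t i))) 0 := by
    intro j
    refine HasDerivAt.fun_sum fun i _ => ?_
    exact lin_deriv _ _ (hC i) (by simp [Zc])
  have hE : HasDerivAt (fun τ : ℂ => ∑ j ∈ range 38, (∑ i ∈ range 5,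
      ((cT j i : ℂ) + τ * uc v j i) * (∑ h ∈ range 6, ((bT i h : ℂ) + τ * ub v i h) *
      (1 + ((h : ℂ) + τ * ua v h) * t) ^ 6) ^ 6) ^ 6) (DD v t) 0 := by
    refine HasDerivAt.fun_sum fun j _ => ?_
    exact pow6_deriv (hD j) (by simp [Zc])
  have : (fun τ : ℂ => Th (τ • v) t) = fun τ : ℂ => ∑ j ∈ range 38, (∑ i ∈ range 5,
      ((cT j i : ℂ) + τ * uc v j i) * (∑ h ∈ range 6, ((bT i h : ℂ) + τ * ub v i h) *
      (1 + ((h : ℂ) + τ * ua v h) * t) ^ 6) ^ 6) ^ 6 := by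
    funext τ
    unfold Th
    simp only [ua_smul, ub_smul, uc_smul]
  rw [this]
  exact hE

theorem sum_range_mul' {M : Type*} [AddCommMonoid M] (a b : ℕ) (f : ℕ → M) :
    ∑ r ∈ range (a * b), f r = ∑ j ∈ range a, ∑ i ∈ range b, f (b * j + i) := by
  induction a with
  | zero => simp
  | succ a ih =>
    rw [Finset.sum_range_succ, ← ih, Nat.succ_mul, Finset.sum_range_add]
    congr 1
    refine Finset.sum_congr rfl fun i _ => ?_
    rw [Nat.mul_comm b a]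

theorem part1 (v : Fin 217 → ℂ) (s : ℕ) :
    ∑ j ∈ range 38, ∑ i ∈ range 5, 6 * (lN s j : ℂ) ^ 5 * (zN s i : ℂ) ^ 6 * uc v j i =
      ∑ r ∈ range 186, (KN s r : ℂ) * ex v r := by
  have h1 : ∑ r ∈ range (38 * 5), (6 * (lN s (r / 5) : ℂ) ^ 5 * (zN s (r % 5) : ℂ) ^ 6 *
      (if r < 186 then ex v r else 0)) = ∑ j ∈ range 38, ∑ i ∈ range 5,
      6 * (lN s j : ℂ) ^ 5 * (zN s i : ℂ) ^ 6 * uc v j i := by
    rw [sum_range_mul']
    refine Finset.sum_congr rfl fun j _ => Finset.sum_congr rfl fun i hi => ?_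
    have hi' := mem_range.mp hi
    have d1 : (5 * j + i) / 5 = j := by omega
    have d2 : (5 * j + i) % 5 = i := by omega
    rw [d1, d2, uc]
  have h2 : ∑ x ∈ range 4, (6 * (lN s ((186 + x) / 5) : ℂ) ^ 5 * (zN s ((186 + x) % 5) : ℂ) ^ 6 *
      (if 186 + x < 186 then ex v (186 + x) else 0)) = 0 := by
    refine Finset.sum_eq_zero fun x _ => ?_
    rw [if_neg (by omega), mul_zero]
  rw [← h1, show 38 * 5 = 186 + 4 from rfl, Finset.sum_range_add, h2, add_zero]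
  refine Finset.sum_congr rfl fun r hr => ?_
  have hr' := mem_range.mp hr
  rw [if_pos hr', KN, if_pos hr']
  push_cast
  ring

theorem part2 (v : Fin 217 → ℂ) (s : ℕ) :
    ∑ i ∈ range 5, ∑ h ∈ range 6,
      36 * (fN s i : ℂ) * (zN s i : ℂ) ^ 5 * (1 + (h : ℂ) * s) ^ 6 * ub v i h =
      ∑ x ∈ range 25, (KN s (186 + x) : ℂ) * ex v (186 + x) := by
  rw [show 25 = 5 * 5 from rfl, sum_range_mul']
  refine Finset.sum_congr rfl fun i hi => ?_
  have hi' := mem_range.mp hi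
  rw [Finset.sum_range_succ']
  have hu0 : ub v i 0 = 0 := by simp [ub]
  rw [hu0, mul_zero, add_zero]
  refine Finset.sum_congr rfl fun h hh => ?_
  have hh' := mem_range.mp hh
  have n1 : ¬ (186 + (5 * i + h) < 186) := by omega
  have n2 : 186 + (5 * i + h) < 211 := by omega
  have n3 : (186 + (5 * i + h) - 186) / 5 = i := by omega
  have n4 : (186 + (5 * i + h) - 186) % 5 = h := by omega
  rw [KN, if_neg n1, if_pos n2, n3, n4, ub, if_neg (by omega)]
  have n5 : h + 1 - 1 = h := by omega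
  rw [n5]
  push_cast
  ring

theorem part3 (v : Fin 217 → ℂ) (s : ℕ) :
    ∑ h ∈ range 6, (∑ i ∈ range 5, (fN s i : ℂ) * (zN s i : ℂ) ^ 5 * (bT i h : ℂ)) *
        (216 * (1 + (h : ℂ) * s) ^ 5 * s * ua v h) =
      ∑ x ∈ range 6, (KN s (186 + 25 + x) : ℂ) * ex v (186 + 25 + x) := by
  refine Finset.sum_congr rfl fun h hh => ?_
  have hh' := mem_range.mp hh
  have n1 : ¬ (186 + 25 + h < 186) := by omega
  have n2 : ¬ (186 + 25 + h < 211) := by omega
  have n3 : 186 + 25 + h - 211 = h := by omega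
  have n4 : ua v h = ex v (186 + 25 + h) := by
    unfold ua
    congr 1
  rw [KN, if_neg n1, if_neg n2, n3, n4]
  push_cast
  ring

theorem DD_eq1 (v : Fin 217 → ℂ) (s : ℕ) :
    DD v (s : ℂ) = (∑ j ∈ range 38, ∑ i ∈ range 5,
        6 * (lN s j : ℂ) ^ 5 * (zN s i : ℂ) ^ 6 * uc v j i) +
      ((∑ i ∈ range 5, ∑ h ∈ range 6,
        36 * (fN s i : ℂ) * (zN s i : ℂ) ^ 5 * (1 + (h : ℂ) * s) ^ 6 * ub v i h) +
      ∑ h ∈ range 6, (∑ i ∈ range 5, (fN s i : ℂ) * (zN s i : ℂ) ^ 5 * (bT i h : ℂ)) *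
        (216 * (1 + (h : ℂ) * s) ^ 5 * s * ua v h)) := by
  have hz : ∀ i, Zc (s : ℂ) i = (zN s i : ℂ) := fun i => by
    unfold Zc zN; push_cast; rfl
  have hl : ∀ j, ∑ i ∈ range 5, (cT j i : ℂ) * (zN s i : ℂ) ^ 6 = (lN s j : ℂ) := fun j => by
    unfold lN; push_cast; rfl
  have hF : ∀ i, ∑ j ∈ range 38, (cT j i : ℂ) * (lN s j : ℂ) ^ 5 = (fN s i : ℂ) := fun i => by
    unfold fN; push_cast; rfl
  unfold DD
  simp only [hz, hl]
  have e1 : ∀ j, 6 * (lN s j : ℂ) ^ 5 * (∑ i ∈ range 5, (uc v j i * (zN s i : ℂ) ^ 6 +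
      (cT j i : ℂ) * (6 * (zN s i : ℂ) ^ 5 * Sc v s i))) =
      (∑ i ∈ range 5, 6 * (lN s j : ℂ) ^ 5 * (zN s i : ℂ) ^ 6 * uc v j i) +
      ∑ i ∈ range 5, ((cT j i : ℂ) * (lN s j : ℂ) ^ 5) * (36 * (zN s i : ℂ) ^ 5 * Sc v s i) := by
    intro j
    rw [Finset.mul_sum, ← Finset.sum_add_distrib]
    refine Finset.sum_congr rfl fun i _ => ?_
    ring
  rw [Finset.sum_congr rfl fun j _ => e1 j, Finset.sum_add_distrib]
  have e2 : ∑ j ∈ range 38, ∑ i ∈ range 5, ((cT j i : ℂ) * (lN s j : ℂ) ^ 5) *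
      (36 * (zN s i : ℂ) ^ 5 * Sc v s i) =
      ∑ i ∈ range 5, (fN s i : ℂ) * (36 * (zN s i : ℂ) ^ 5 * Sc v s i) := by
    rw [Finset.sum_comm]
    refine Finset.sum_congr rfl fun i _ => ?_
    rw [← hF i, Finset.sum_mul]
  rw [e2]
  have e3 : ∀ i, (fN s i : ℂ) * (36 * (zN s i : ℂ) ^ 5 * Sc v s i) =
      (∑ h ∈ range 6, 36 * (fN s i : ℂ) * (zN s i : ℂ) ^ 5 * (1 + (h : ℂ) * s) ^ 6 * ub v i h) +
      ∑ h ∈ range 6, ((fN s i : ℂ) * (zN s i : ℂ) ^ 5 * (bT i h : ℂ)) *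
        (216 * (1 + (h : ℂ) * s) ^ 5 * s * ua v h) := by
    intro i
    unfold Sc
    rw [← Finset.sum_add_distrib, Finset.mul_sum, Finset.mul_sum]
    refine Finset.sum_congr rfl fun h _ => ?_
    ring
  rw [Finset.sum_congr rfl fun i _ => e3 i, Finset.sum_add_distrib]
  have e4 : ∑ i ∈ range 5, ∑ h ∈ range 6, ((fN s i : ℂ) * (zN s i : ℂ) ^ 5 * (bT i h : ℂ)) *
        (216 * (1 + (h : ℂ) * s) ^ 5 * s * ua v h) =
      ∑ h ∈ range 6, (∑ i ∈ range 5, (fN s i : ℂ) * (zN s i : ℂ) ^ 5 * (bT i h : ℂ)) *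
        (216 * (1 + (h : ℂ) * s) ^ 5 * s * ua v h) := by
    rw [Finset.sum_comm]
    refine Finset.sum_congr rfl fun h _ => ?_
    rw [Finset.sum_mul]
  rw [e4]

theorem DD_eq (v : Fin 217 → ℂ) (s : ℕ) :
    DD v (s : ℂ) = ∑ r ∈ range 217, (KN s r : ℂ) * ex v r := by
  rw [DD_eq1, part1, part2, part3, show (217 : ℕ) = 186 + 25 + 6 from rfl,
    Finset.sum_range_add, Finset.sum_range_add, add_assoc]

/-- the Jacobian matrix -/
noncomputable def MM : Matrix (Fin 217) (Fin 217) ℂ := Matrix.of fun s r => (KN s r : ℂ)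

theorem det_MM : MM.det ≠ 0 := by
  intro h
  apply det_ne_zero
  have h1 : ((Matrix.of fun (s r : Fin 217) => ((KN s r : ℕ) : ℤ)).map (Int.castRingHom ℂ)) = MM := by
    ext s r
    simp [MM]
  have h2 := (Int.castRingHom ℂ).map_det (Matrix.of fun (s r : Fin 217) => ((KN s r : ℕ) : ℤ))
  rw [RingHom.mapMatrix_apply, h1, h] at h2
  have h3 : ((Matrix.of fun (s r : Fin 217) => ((KN s r : ℕ) : ℤ)).det : ℂ) = 0 := h2
  exact_mod_cast h3

theorem DD_mulVec (v : Fin 217 → ℂ) (s : Fin 217) : DD v ((s : ℕ) : ℂ) = MM.mulVec v s := by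
  rw [DD_eq, Matrix.mulVec, dotProduct,
    ← Fin.sum_univ_eq_sum_range (fun r => (KN s r : ℂ) * ex v r) 217]
  refine Finset.sum_congr rfl fun r _ => ?_
  simp [MM, ex]

/-- the values of the network at the points `0, ..., 216` -/
noncomputable def Psi (u : Fin 217 → ℂ) : Fin 217 → ℂ := fun s => Th u ((s : ℕ) : ℂ)

theorem nhds_Psi : Filter.map Psi (nhds 0) = nhds (Psi 0) := by
  have hcd : ContDiff ℂ 1 Psi := contDiff_pi.mpr fun s => contDiff_Th _
  have hst : HasStrictFDerivAt Psi (fderiv ℂ Psi 0) 0 :=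
    hcd.contDiffAt.hasStrictFDerivAt one_ne_zero
  refine hst.map_nhds_eq_of_surj ?_
  have hval : ∀ v, fderiv ℂ Psi 0 v = MM.mulVec v := by
    intro v
    have h1 : HasDerivAt (fun τ : ℂ => Psi (τ • v)) (fderiv ℂ Psi 0 v) 0 := by
      have hg : HasDerivAt (fun τ : ℂ => τ • v) v 0 := by
        have := (hasDerivAt_id (0 : ℂ)).smul_const v
        simpa using this
      have hf : HasFDerivAt Psi (fderiv ℂ Psi 0) ((0 : ℂ) • v) := by
        rw [zero_smul]; exact hst.hasFDerivAt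
      exact hf.comp_hasDerivAt 0 hg
    have h2 : HasDerivAt (fun τ : ℂ => Psi (τ • v)) (fun s : Fin 217 => DD v ((s : ℕ) : ℂ)) 0 := by
      rw [hasDerivAt_pi]
      intro s
      exact hasDeriv_Th v _
    rw [h1.unique h2]
    funext s
    exact DD_mulVec v s
  rw [LinearMap.range_eq_top]
  intro w
  have hu : IsUnit MM := (Matrix.isUnit_iff_isUnit_det _).mpr (isUnit_iff_ne_zero.mpr det_MM)
  obtain ⟨v, hv⟩ := (Matrix.mulVec_surjective_iff_isUnit.mpr hu) w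
  exact ⟨v, by rw [← hv]; exact hval v⟩

/-- the coefficients of the network -/
noncomputable def cf (u : Fin 217 → ℂ) : Fin 217 → ℂ := fun k => coeff (expo k) (net 6 5 38 (WW u) 0)

theorem vander_cf (u : Fin 217 → ℂ) :
    (Matrix.vandermonde (fun s : Fin 217 => ((s : ℕ) : ℂ))).mulVec (cf u) = Psi u := by
  funext s
  have h1 := eval_net 6 5 38 (WW u) 0 ((s : ℕ) : ℂ)
  rw [eval_WW] at h1
  rw [Psi, h1, Matrix.mulVec, dotProduct,
    ← Fin.sum_univ_eq_sum_range (fun k => coeff (expo k) (net 6 5 38 (WW u) 0) * ((s : ℕ) : ℂ) ^ k) 217]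
  refine Finset.sum_congr rfl fun k _ => ?_
  simp [Matrix.vandermonde_apply, cf, mul_comm]

theorem poly_zero_of_eventually (Q : MvPolynomial (Fin 217) ℂ) (c : Fin 217 → ℂ)
    (h : ∀ᶠ x in nhds c, eval x Q = 0) : Q = 0 := by
  rw [Metric.eventually_nhds_iff] at h
  obtain ⟨ε, hε, h⟩ := h
  refine MvPolynomial.funext_set (s := fun i => Metric.ball (c i) ε) (fun i => ?_) (fun x hx => ?_)
  · exact (Metric.ball_mem_nhds (c i) hε).out |> fun hh => infinite_of_mem_nhds (c i) hh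
  · rw [map_zero]
    refine h ?_
    rw [dist_pi_lt_iff hε]
    intro i
    exact hx i (Set.mem_univ i)

theorem fill (Q : MvPolynomial (Fin 217) ℂ) (hQ : ∀ u, eval (cf u) Q = 0) : Q = 0 := by
  refine poly_zero_of_eventually Q (cf 0) ?_
  let V := Matrix.vandermonde (fun s : Fin 217 => ((s : ℕ) : ℂ))
  have hVdet : V.det ≠ 0 := by
    rw [Matrix.det_vandermonde_ne_zero_iff]
    intro a b hab
    have hab' : ((a : ℕ) : ℂ) = ((b : ℕ) : ℂ) := hab
    exact Fin.ext (by exact_mod_cast hab')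
  have hVinj : Function.Injective V.mulVec :=
    Matrix.mulVec_injective_iff_isUnit.mpr
      ((Matrix.isUnit_iff_isUnit_det _).mpr (isUnit_iff_ne_zero.mpr hVdet))
  have hcont : Continuous (fun x : Fin 217 → ℂ => V.mulVec x) := by
    exact (Matrix.mulVecLin V).continuous_of_finiteDimensional
  have h1 : ∀ᶠ y in nhds (Psi 0), ∃ u, Psi u = y := by
    rw [← nhds_Psi, Filter.eventually_map]
    exact Filter.Eventually.of_forall fun u => ⟨u, rfl⟩
  have h2 : Filter.Tendsto (fun x : Fin 217 → ℂ => V.mulVec x) (nhds (cf 0)) (nhds (Psi 0)) := by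
    rw [← vander_cf]
    exact hcont.continuousAt
  refine (h2.eventually h1).mono fun x hx => ?_
  obtain ⟨u, hu⟩ := hx
  rw [← vander_cf] at hu
  rw [← hVinj hu]
  exact hQ u

end Pool.Agent.W469.A30
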