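import Pool.Agent.W469.A30Non
import Pool.Agent.W469.A30Fill

/-! Assembling the counterexample. -/

set_option autoImplicit false

namespace Pool.Agent.W469.A30

open MvPolynomial Finset

/-- the filling condition for depth 4 and activation degree 6 -/
def Fil (e : Fin (4 + 1) → ℕ) : Prop :=
  ∀ P : MvPolynomial (ℕ × (ℕ →₀ ℕ)) ℂ,
    (∀ W : Fin 4 → ℕ → ℕ → ℂ,
      MvPolynomial.eval (fun p : ℕ × (ℕ →₀ ℕ) => MvPolynomial.coeff p.2
        ((List.finRange 4).foldl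
          (fun (h : ℕ → MvPolynomial ℕ ℂ) (k : Fin 4) (a : ℕ) =>
            ∑ b ∈ Finset.range (e k.castSucc),
              MvPolynomial.C (W k a b) * h b ^ (if (k : ℕ) = 0 then 1 else 6))
          (fun b : ℕ => (MvPolynomial.X b : MvPolynomial ℕ ℂ)) p.1)) P = 0) →
    ∀ c : ℕ × (ℕ →₀ ℕ) → ℂ,
      (∀ p : ℕ × (ℕ →₀ ℕ), c p ≠ 0 →
        p.1 < e (Fin.last 4) ∧ (∑ b ∈ p.2.support, p.2 b) = 6 ^ (4 - 1) ∧
          ∀ b ∈ p.2.support, b < e 0) →
      MvPolynomial.eval c P = 0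

/-- the coefficient family with given coefficients -/
noncomputable def emb (v : Fin 217 → ℂ) (p : ℕ × (ℕ →₀ ℕ)) : ℂ :=
  if h : p.1 = 0 ∧ p.2 = expo (p.2 1) ∧ p.2 1 < 217 then v ⟨p.2 1, h.2.2⟩ else 0

theorem emb_expo (v : Fin 217 → ℂ) (k : Fin 217) : emb v (0, expo k) = v k := by
  unfold emb
  have h : ((0 : ℕ), expo (k : ℕ)).1 = 0 ∧ ((0 : ℕ), expo (k : ℕ)).2 =
      expo (((0 : ℕ), expo (k : ℕ)).2 1) ∧ ((0 : ℕ), expo (k : ℕ)).2 1 < 217 := by
    refine ⟨rfl, ?_, ?_⟩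
    · simp
    · simp
  rw [dif_pos h]
  congr 1
  apply Fin.ext
  simp

theorem sum_expo (k : ℕ) (hk : k < 217) : ∑ b ∈ (expo k).support, (expo k) b = 216 := by
  have : (expo k).sum (fun _ e => e) = 216 := by
    rw [expo, Finsupp.sum_add_index' (by simp) (by simp), Finsupp.sum_single_index (by simp),
      Finsupp.sum_single_index (by simp)]
    omega
  exact this

theorem support_expo (k : ℕ) : ∀ b ∈ (expo k).support, b < 2 := by
  intro b hb
  by_contra hlt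
  have h0 : b ≠ 0 := by omega
  have h1 : b ≠ 1 := by omega
  rw [Finsupp.mem_support_iff] at hb
  apply hb
  simp [expo, Ne.symm h0, Ne.symm h1]

theorem emb_ambient (v : Fin 217 → ℂ) (p : ℕ × (ℕ →₀ ℕ)) (hp : emb v p ≠ 0) :
    p.1 < 1 ∧ (∑ b ∈ p.2.support, p.2 b) = 6 ^ (4 - 1) ∧ ∀ b ∈ p.2.support, b < 2 := by
  unfold emb at hp
  by_cases h : p.1 = 0 ∧ p.2 = expo (p.2 1) ∧ p.2 1 < 217
  · obtain ⟨h1, h2, h3⟩ := h
    refine ⟨by omega, ?_, ?_⟩
    · rw [h2, sum_expo _ h3]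
      norm_num
    · rw [h2]
      exact support_expo _
  · rw [dif_neg h] at hp
    exact absurd rfl hp

theorem eq_emb (c : ℕ × (ℕ →₀ ℕ) → ℂ)
    (hc : ∀ p, c p ≠ 0 → p.1 = 0 ∧ p.2 = expo (p.2 1) ∧ p.2 1 < 217) :
    c = emb (fun k => c (0, expo k)) := by
  funext p
  unfold emb
  by_cases h : p.1 = 0 ∧ p.2 = expo (p.2 1) ∧ p.2 1 < 217
  · rw [dif_pos h]
    obtain ⟨h1, h2, h3⟩ := h
    have : p = (0, expo (p.2 1)) := by
      rw [← h2, ← h1]
    exact congrArg c this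
  · rw [dif_neg h]
    by_contra hne
    exact h (hc p hne)

/-- the restriction of a polynomial to the ambient space -/
noncomputable def restr (P : MvPolynomial (ℕ × (ℕ →₀ ℕ)) ℂ) : MvPolynomial (Fin 217) ℂ :=
  eval₂ C (fun p => if h : p.1 = 0 ∧ p.2 = expo (p.2 1) ∧ p.2 1 < 217 then
    X ⟨p.2 1, h.2.2⟩ else 0) P

theorem eval_restr (P : MvPolynomial (ℕ × (ℕ →₀ ℕ)) ℂ) (v : Fin 217 → ℂ) :
    eval v (restr P) = eval (emb v) P := by
  unfold restr
  rw [hom_eval₂]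
  have h4 : (eval v).comp (C : ℂ →+* MvPolynomial (Fin 217) ℂ) = RingHom.id ℂ := by
    ext r
    simp
  have h5 : (fun i : ℕ × (ℕ →₀ ℕ) => (eval v) (if h : i.1 = 0 ∧ i.2 = expo (i.2 1) ∧ i.2 1 < 217 then
    (X ⟨i.2 1, h.2.2⟩ : MvPolynomial (Fin 217) ℂ) else 0)) = emb v := by
    funext p
    unfold emb
    split_ifs with h
    · simp
    · simp
  rw [h4, h5, eval₂_id]

theorem net_zero (u : Fin 217 → ℂ) (o : ℕ) (ho : o ≠ 0) : net 6 5 38 (WW u) o = 0 := by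
  unfold net
  refine Finset.sum_eq_zero fun j _ => ?_
  have : WW u 3 o j = 0 := by
    simp [WW, ho]
  rw [this, C_0, zero_mul]

theorem net_emb (u : Fin 217 → ℂ) :
    (fun p : ℕ × (ℕ →₀ ℕ) => coeff p.2 (net 6 5 38 (WW u) p.1)) = emb (cf u) := by
  rw [eq_emb (fun p : ℕ × (ℕ →₀ ℕ) => coeff p.2 (net 6 5 38 (WW u) p.1))]
  · rfl
  · intro p hp
    have h1 : p.1 = 0 := by
      by_contra hne
      apply hp
      rw [net_zero u p.1 hne, coeff_zero]
    exact ⟨h1, coeff_net_ne _ _ _ _ _ _ hp⟩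

theorem fil_of (e : Fin (4 + 1) → ℕ) (h0 : e 0 = 2) (h1 : e 1 = 6) (h2 : e 2 = 5) (h3 : e 3 = 38)
    (h4 : e (Fin.last 4) = 1) : Fil e := by
  intro P hP c hc
  have hQ : restr P = 0 := by
    refine fill (restr P) fun u => ?_
    rw [eval_restr]
    have := hP (WW u)
    simp only [fold_eq e h0, h1, h2, h3] at this
    rw [net_emb] at this
    exact this
  rw [eq_emb c, ← eval_restr, hQ, map_zero]
  intro p hp
  obtain ⟨g1, g2, g3⟩ := hc p hp
  rw [h4] at g1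
  rw [h0] at g3
  refine ⟨by omega, eq_expo_of p.2 ?_ g3⟩
  rw [Finsupp.sum, g2]
  norm_num

theorem not_fil (e : Fin (4 + 1) → ℕ) (h0 : e 0 = 2) (h4 : e (Fin.last 4) = 1) (ha : 1 ≤ e 1)
    (hcount : e 1 + e 2 * (e 1 + e 3 - 1) ≤ 216) : ¬ Fil e := by
  intro hF
  obtain ⟨Q, hQ0, hQ⟩ := not_fill (e 1) (e 2) (e 3) ha hcount
  apply hQ0
  refine MvPolynomial.funext fun v => ?_
  rw [map_zero]
  have h := hF (rename (fun k : Fin 217 => ((0 : ℕ), expo k)) Q) ?_ (emb v) ?_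
  · rw [eval_rename] at h
    have h5 : (emb v ∘ fun k : Fin 217 => ((0 : ℕ), expo (k : ℕ))) = v := by
      funext k
      exact emb_expo v k
    rw [h5] at h
    exact h
  · intro W
    simp only [fold_eq e h0]
    rw [eval_rename]
    exact hQ W
  · intro p hp
    rw [h0, h4]
    exact emb_ambient v p hp

end Pool.Agent.W469.A30
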