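import Mathlib

/-! The network polynomial for depth 4 and activation degree 6 in two variables. -/

set_option autoImplicit false

namespace Pool.Agent.W469.A30

open MvPolynomial Finset

section
variable {R : Type*} [CommRing R]

/-- the network of widths `(2, a, b, c, _)` -/
noncomputable def net (a b c : ℕ) (W : Fin 4 → ℕ → ℕ → R) (o : ℕ) : MvPolynomial ℕ R :=
  ∑ j ∈ range c, C (W 3 o j) * (∑ i ∈ range b, C (W 2 j i) *
    (∑ h ∈ range a, C (W 1 i h) * (∑ x ∈ range 2, C (W 0 h x) * X x) ^ 6) ^ 6) ^ 6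

theorem net_isHomogeneous (a b c : ℕ) (W : Fin 4 → ℕ → ℕ → R) (o : ℕ) :
    (net a b c W o).IsHomogeneous 216 := by
  unfold net
  refine IsHomogeneous.sum _ _ _ fun j _ => ?_
  have h1 : ∀ h, (∑ x ∈ range 2, C (W 0 h x) * X x : MvPolynomial ℕ R).IsHomogeneous 1 := fun h =>
    IsHomogeneous.sum _ _ _ fun x _ => isHomogeneous_C_mul_X _ _
  have h2 : ∀ i, (∑ h ∈ range a, C (W 1 i h) * (∑ x ∈ range 2, C (W 0 h x) * X x) ^ 6 :
      MvPolynomial ℕ R).IsHomogeneous 6 := fun i =>
    IsHomogeneous.sum _ _ _ fun h _ => by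
      have := (isHomogeneous_C ℕ (W 1 i h)).mul ((h1 h).pow 6)
      simpa using this
  have h3 : ∀ j, (∑ i ∈ range b, C (W 2 j i) * (∑ h ∈ range a, C (W 1 i h) *
      (∑ x ∈ range 2, C (W 0 h x) * X x) ^ 6) ^ 6 : MvPolynomial ℕ R).IsHomogeneous 36 := fun j =>
    IsHomogeneous.sum _ _ _ fun i _ => by
      have := (isHomogeneous_C ℕ (W 2 j i)).mul ((h2 i).pow 6)
      simpa using this
  have := (isHomogeneous_C ℕ (W 3 o j)).mul ((h3 j).pow 6)
  simpa using this

theorem net_supported (a b c : ℕ) (W : Fin 4 → ℕ → ℕ → R) (o : ℕ) :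
    net a b c W o ∈ supported R ({0, 1} : Set ℕ) := by
  unfold net
  have hC : ∀ r : R, (C r : MvPolynomial ℕ R) ∈ supported R ({0, 1} : Set ℕ) := fun r =>
    Subalgebra.algebraMap_mem _ r
  refine Subalgebra.sum_mem _ fun j _ => Subalgebra.mul_mem _ (hC _) (Subalgebra.pow_mem _ ?_ _)
  refine Subalgebra.sum_mem _ fun i _ => Subalgebra.mul_mem _ (hC _) (Subalgebra.pow_mem _ ?_ _)
  refine Subalgebra.sum_mem _ fun h _ => Subalgebra.mul_mem _ (hC _) (Subalgebra.pow_mem _ ?_ _)
  refine Subalgebra.sum_mem _ fun x hx => Subalgebra.mul_mem _ (hC _) ?_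
  have hx' := mem_range.mp hx
  have : x ∈ ({0, 1} : Set ℕ) := by
    interval_cases x <;> simp
  exact Algebra.subset_adjoin (Set.mem_image_of_mem _ this)

/-- the exponent of `x₀ ^ (216 - k) x₁ ^ k` -/
noncomputable def expo (k : ℕ) : ℕ →₀ ℕ := Finsupp.single 0 (216 - k) + Finsupp.single 1 k

@[simp] theorem expo_zero (k : ℕ) : expo k 0 = 216 - k := by
  simp [expo]

@[simp] theorem expo_one (k : ℕ) : expo k 1 = k := by
  simp [expo]

theorem expo_inj {k l : ℕ} (h : expo k = expo l) : k = l := by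
  have := DFunLike.congr_fun h 1
  simpa using this

theorem eq_expo_of (m : ℕ →₀ ℕ) (h1 : m.sum (fun _ e => e) = 216)
    (h2 : ∀ x ∈ m.support, x < 2) : m = expo (m 1) ∧ m 1 < 217 := by
  have hsub : m.support ⊆ range 2 := fun x hx => mem_range.mpr (h2 x hx)
  have h3 : m 0 + m 1 = 216 := by
    rw [← h1, Finsupp.sum, Finset.sum_subset hsub (by
      intro x _ hx
      simpa using hx)]
    simp [Finset.sum_range_succ]
  refine ⟨?_, by omega⟩
  ext x
  by_cases hx0 : x = 0
  · subst hx0; simp; omega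
  · by_cases hx1 : x = 1
    · subst hx1; simp
    · have : x ∉ m.support := fun hx => by have := h2 x hx; omega
      have h4 : m x = 0 := by simpa using this
      rw [h4]
      simp [expo, Ne.symm hx0, Ne.symm hx1]

theorem coeff_net_ne (a b c : ℕ) (W : Fin 4 → ℕ → ℕ → R) (o : ℕ) (m : ℕ →₀ ℕ)
    (h : coeff m (net a b c W o) ≠ 0) : m = expo (m 1) ∧ m 1 < 217 := by
  have h1 := net_isHomogeneous a b c W o h
  have h2 : m.sum (fun _ e => e) = 216 := by
    have : Finsupp.weight (1 : ℕ → ℕ) m = 216 := h1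
    rw [Finsupp.weight_apply] at this
    simpa using this
  refine eq_expo_of m h2 ?_
  intro x hx
  have h3 := (mem_supported (s := ({0, 1} : Set ℕ))).mp (net_supported a b c W o)
  have h4 : x ∈ (net a b c W o).vars := by
    rw [mem_vars_iff_mem_support]
    exact ⟨m, mem_support_iff.mpr h, hx⟩
  have h5 := h3 h4
  simp only [Set.mem_insert_iff, Set.mem_singleton_iff] at h5
  omega

theorem net_eq_sum (a b c : ℕ) (W : Fin 4 → ℕ → ℕ → R) (o : ℕ) :
    net a b c W o = ∑ k ∈ range 217, monomial (expo k) (coeff (expo k) (net a b c W o)) := by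
  ext m
  rw [coeff_sum]
  simp only [coeff_monomial]
  by_cases hm : coeff m (net a b c W o) = 0
  · rw [hm]
    symm
    refine Finset.sum_eq_zero fun k _ => ?_
    split_ifs with hk
    · rw [hk, hm]
    · rfl
  · obtain ⟨h1, h2⟩ := coeff_net_ne a b c W o m hm
    rw [Finset.sum_eq_single (m 1)]
    · rw [if_pos h1.symm, ← h1]
    · intro k _ hk
      rw [if_neg]
      intro hh
      apply hk
      rw [← hh]
      simp
    · intro hh
      exact absurd (mem_range.mpr h2) hh

theorem eval_net (a b c : ℕ) (W : Fin 4 → ℕ → ℕ → R) (o : ℕ) (t : R) :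
    eval (fun n => if n = 0 then 1 else t) (net a b c W o) =
      ∑ k ∈ range 217, coeff (expo k) (net a b c W o) * t ^ k := by
  conv_lhs => rw [net_eq_sum]
  rw [map_sum]
  refine Finset.sum_congr rfl fun k _ => ?_
  rw [eval_monomial]
  congr 1
  rw [expo, Finsupp.prod_add_index' (by simp) (by intros; rw [pow_add])]
  rw [Finsupp.prod_single_index (by simp), Finsupp.prod_single_index (by simp)]
  simp

theorem eval_net' (a b c : ℕ) (W : Fin 4 → ℕ → ℕ → R) (o : ℕ) (t : R) :
    eval (fun n => if n = 0 then 1 else t) (net a b c W o) =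
      ∑ j ∈ range c, W 3 o j * (∑ i ∈ range b, W 2 j i *
        (∑ h ∈ range a, W 1 i h * (W 0 h 0 + W 0 h 1 * t) ^ 6) ^ 6) ^ 6 := by
  unfold net
  simp [map_sum, Finset.sum_range_succ (n := 1)]

theorem map_net {S : Type*} [CommRing S] (φ : R →+* S) (a b c : ℕ) (W : Fin 4 → ℕ → ℕ → R)
    (o : ℕ) : MvPolynomial.map φ (net a b c W o) = net a b c (fun l x y => φ (W l x y)) o := by
  unfold net
  simp [map_sum]

end

theorem fold_eq (e : Fin (4 + 1) → ℕ) (h0 : e 0 = 2) (W : Fin 4 → ℕ → ℕ → ℂ) (o : ℕ) :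
    ((List.finRange 4).foldl
      (fun (h : ℕ → MvPolynomial ℕ ℂ) (k : Fin 4) (a : ℕ) =>
        ∑ b ∈ Finset.range (e k.castSucc),
          MvPolynomial.C (W k a b) * h b ^ (if (k : ℕ) = 0 then 1 else 6))
      (fun b : ℕ => (MvPolynomial.X b : MvPolynomial ℕ ℂ)) o) = net (e 1) (e 2) (e 3) W o := by
  have hl : List.finRange 4 = [0, 1, 2, 3] := by decide
  rw [hl]
  simp only [List.foldl_cons, List.foldl_nil]
  have e0 : e (Fin.castSucc (0 : Fin 4)) = 2 := h0
  have e1 : e (Fin.castSucc (1 : Fin 4)) = e 1 := rfl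
  have e2 : e (Fin.castSucc (2 : Fin 4)) = e 2 := rfl
  have e3 : e (Fin.castSucc (3 : Fin 4)) = e 3 := rfl
  rw [e0, e1, e2, e3]
  unfold net
  simp

end Pool.Agent.W469.A30
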