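import Pool.Agent.W469.A30Net

/-! Networks with too few parameters are not filling. -/

set_option autoImplicit false

namespace Pool.Agent.W469.A30

open MvPolynomial Finset

/-- index set of the normalised weights -/
abbrev Idx (a b c : ℕ) : Type := Fin a ⊕ (Fin b × Fin (a - 1)) ⊕ (Fin c × Fin b)

/-- normalised weights with parameters `v` -/
noncomputable def nW {R : Type*} [CommRing R] (a b c : ℕ) (v : Idx a b c → R) :
    Fin 4 → ℕ → ℕ → R := fun l x y =>
  match l with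
  | 0 => if y = 0 then 1 else if h : x < a then v (Sum.inl ⟨x, h⟩) else 0
  | 1 => if y = 0 then 1 else if h : x < b ∧ y - 1 < a - 1 then
      v (Sum.inr (Sum.inl (⟨x, h.1⟩, ⟨y - 1, h.2⟩))) else 0
  | 2 => if h : x < c ∧ y < b then v (Sum.inr (Sum.inr (⟨x, h.1⟩, ⟨y, h.2⟩))) else 0
  | 3 => 1

theorem map_nW {R S : Type*} [CommRing R] [CommRing S] (φ : R →+* S) (a b c : ℕ)
    (v : Idx a b c → R) :
    (fun l x y => φ (nW a b c v l x y)) = nW a b c (fun i => φ (v i)) := by
  funext l x y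
  fin_cases l
  · simp only [nW]
    split_ifs <;> simp
  · simp only [nW]
    split_ifs <;> simp
  · simp only [nW]
    split_ifs <;> simp
  · simp [nW]

theorem exists_relation (a b c : ℕ) (ha : 1 ≤ a) (hcount : a + b * (a + c - 1) ≤ 216) :
    ∃ Q : MvPolynomial (Fin 217) ℂ, Q ≠ 0 ∧ ∀ v : Idx a b c → ℂ,
      eval (fun k : Fin 217 => coeff (expo k) (net a b c (nW a b c v) 0)) Q = 0 := by
  have hcard : Fintype.card (Idx a b c) ≤ 216 := by
    simp only [Fintype.card_sum, Fintype.card_prod, Fintype.card_fin]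
    obtain ⟨a', rfl⟩ : ∃ a', a = a' + 1 := ⟨a - 1, by omega⟩
    have : a' + 1 + c - 1 = a' + c := by omega
    rw [this] at hcount
    have h2 : a' + 1 - 1 = a' := by omega
    rw [h2]
    nlinarith [hcount]
  let G : Fin 217 → MvPolynomial (Idx a b c) ℂ := fun k =>
    coeff (expo k) (net a b c (nW a b c (fun i => (X i : MvPolynomial (Idx a b c) ℂ))) 0)
  have hG : ¬ AlgebraicIndependent ℂ G := by
    intro hind
    have h1 := hind.lift_cardinalMk_le_trdeg
    rw [MvPolynomial.trdeg_of_isDomain] at h1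
    simp only [Cardinal.mk_fintype, Fintype.card_fin, Cardinal.lift_natCast] at h1
    have h2 : (217 : ℕ) ≤ Fintype.card (Idx a b c) := by exact_mod_cast h1
    omega
  rw [algebraicIndependent_iff] at hG
  push Not at hG
  obtain ⟨Q, hQ, hQ0⟩ := hG
  refine ⟨Q, hQ0, fun v => ?_⟩
  have h3 := congrArg (eval v) hQ
  rw [map_zero, aeval_def, hom_eval₂] at h3
  have h4 : (eval v).comp (algebraMap ℂ (MvPolynomial (Idx a b c) ℂ)) = RingHom.id ℂ := by
    ext r
    simp [algebraMap_eq]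
  have h5 : (fun i => (eval v) (G i)) = fun k : Fin 217 => coeff (expo k) (net a b c (nW a b c v) 0) := by
    funext k
    have h6 : (eval v) (G k) = coeff (expo k) (MvPolynomial.map (eval v)
        (net a b c (nW a b c (fun i => (X i : MvPolynomial (Idx a b c) ℂ))) 0)) := by
      rw [coeff_map]
    rw [h6, map_net, map_nW]
    simp only [eval_X]
  rw [h4, h5, eval₂_id] at h3
  exact h3

theorem net_normal (a b c : ℕ) (W : Fin 4 → ℕ → ℕ → ℂ) (ha : 1 ≤ a)
    (h0 : ∀ h < a, W 0 h 0 ≠ 0) (h1 : ∀ i < b, W 1 i 0 ≠ 0) :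
    ∃ v : Idx a b c → ℂ, net a b c W 0 = net a b c (nW a b c v) 0 := by
  have hroot : ∀ w : ℂ, ∃ u : ℂ, u ^ 6 = w := fun w => IsAlgClosed.exists_pow_nat_eq w (by norm_num)
  choose u hu using fun j => hroot (W 3 0 j)
  let γ : ℕ → ℂ := fun i => W 1 i 0 * (W 0 0 0) ^ 6
  have hγ : ∀ i < b, γ i ≠ 0 := fun i hi => mul_ne_zero (h1 i hi) (pow_ne_zero _ (h0 0 ha))
  let v : Idx a b c → ℂ := fun s =>
    match s with
    | Sum.inl h => W 0 h 1 / W 0 h 0
    | Sum.inr (Sum.inl (i, h)) => W 1 i (h + 1) * W 0 (h + 1) 0 ^ 6 / γ i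
    | Sum.inr (Sum.inr (j, i)) => u j * (W 2 j i * γ i ^ 6)
  have v00 : ∀ h < a, nW a b c v 0 h 0 = 1 := fun h hh => by simp [nW]
  have v01 : ∀ h < a, nW a b c v 0 h 1 = W 0 h 1 / W 0 h 0 := fun h hh => by
    simp only [nW, v, one_ne_zero, if_false, dif_pos hh]
  have v1 : ∀ i < b, ∀ h < a, γ i * nW a b c v 1 i h = W 1 i h * W 0 h 0 ^ 6 := by
    intro i hi h hh
    by_cases hz : h = 0
    · subst hz
      simp [nW, γ]
    · have hlt : i < b ∧ h - 1 < a - 1 := ⟨hi, by omega⟩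
      have hs : h - 1 + 1 = h := by omega
      simp only [nW, v, if_neg hz, dif_pos hlt, hs]
      rw [mul_div_cancel₀ _ (hγ i hi)]
  have v2 : ∀ j < c, ∀ i < b, nW a b c v 2 j i = u j * (W 2 j i * γ i ^ 6) := by
    intro j hj i hi
    have hlt : j < c ∧ i < b := ⟨hj, hi⟩
    simp only [nW, v, dif_pos hlt]
  have v3 : ∀ j, nW a b c v 3 0 j = 1 := fun j => rfl
  refine ⟨v, ?_⟩
  generalize nW a b c v = V at v00 v01 v1 v2 v3 ⊢
  have hL : ∀ h < a, (∑ x ∈ range 2, C (W 0 h x) * X x : MvPolynomial ℕ ℂ) =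
      C (W 0 h 0) * ∑ x ∈ range 2, C (V 0 h x) * X x := by
    intro h hh
    rw [Finset.sum_range_succ, Finset.sum_range_one, Finset.sum_range_succ, Finset.sum_range_one,
      v00 h hh, v01 h hh, mul_add, ← mul_assoc, ← mul_assoc, ← C_mul, ← C_mul, mul_one,
      mul_div_cancel₀ _ (h0 h hh)]
  have hS : ∀ i < b, (∑ h ∈ range a, C (W 1 i h) * (∑ x ∈ range 2, C (W 0 h x) * X x) ^ 6 :
      MvPolynomial ℕ ℂ) = C (γ i) * ∑ h ∈ range a, C (V 1 i h) *
        (∑ x ∈ range 2, C (V 0 h x) * X x) ^ 6 := by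
    intro i hi
    rw [Finset.mul_sum]
    refine Finset.sum_congr rfl fun h hh => ?_
    have hh' := mem_range.mp hh
    rw [hL h hh', mul_pow, ← mul_assoc, ← mul_assoc, ← C_pow, ← C_mul, ← C_mul, v1 i hi h hh']
  have hT : ∀ j, (∑ i ∈ range b, C (W 2 j i) * (∑ h ∈ range a, C (W 1 i h) *
      (∑ x ∈ range 2, C (W 0 h x) * X x) ^ 6) ^ 6 : MvPolynomial ℕ ℂ) =
      ∑ i ∈ range b, C (W 2 j i * γ i ^ 6) * (∑ h ∈ range a, C (V 1 i h) *
        (∑ x ∈ range 2, C (V 0 h x) * X x) ^ 6) ^ 6 := by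
    intro j
    refine Finset.sum_congr rfl fun i hi => ?_
    rw [hS i (mem_range.mp hi), mul_pow, ← mul_assoc, ← C_pow, ← C_mul]
  have hU : ∀ j < c, C (u j) * (∑ i ∈ range b, C (W 2 j i * γ i ^ 6) * (∑ h ∈ range a, C (V 1 i h) *
        (∑ x ∈ range 2, C (V 0 h x) * X x) ^ 6) ^ 6 : MvPolynomial ℕ ℂ) =
      ∑ i ∈ range b, C (V 2 j i) * (∑ h ∈ range a, C (V 1 i h) *
        (∑ x ∈ range 2, C (V 0 h x) * X x) ^ 6) ^ 6 := by
    intro j hj
    rw [Finset.mul_sum]
    refine Finset.sum_congr rfl fun i hi => ?_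
    rw [← mul_assoc, ← C_mul, v2 j hj i (mem_range.mp hi)]
  unfold net
  refine Finset.sum_congr rfl fun j hj => ?_
  rw [hT j, ← hu j, C_pow, ← mul_pow, hU j (mem_range.mp hj), v3 j, C_1, one_mul]

/-- perturbed weights -/
noncomputable def pW {R : Type*} [CommRing R] (W : Fin 4 → ℕ → ℕ → R) (ε : R) :
    Fin 4 → ℕ → ℕ → R := fun l x y =>
  match l with
  | 0 => W 0 x y + if y = 0 then ε else 0
  | 1 => W 1 x y + if y = 0 then ε else 0
  | 2 => W 2 x y
  | 3 => W 3 x y

theorem map_pW {R S : Type*} [CommRing R] [CommRing S] (φ : R →+* S) (W : Fin 4 → ℕ → ℕ → R)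
    (ε : R) : (fun l x y => φ (pW W ε l x y)) = pW (fun l x y => φ (W l x y)) (φ ε) := by
  funext l x y
  fin_cases l
  · simp only [pW]
    split_ifs <;> simp
  · simp only [pW]
    split_ifs <;> simp
  · rfl
  · rfl

theorem pW_zero {R : Type*} [CommRing R] (W : Fin 4 → ℕ → ℕ → R) : pW W 0 = W := by
  funext l x y
  fin_cases l <;> simp [pW]

theorem not_fill (a b c : ℕ) (ha : 1 ≤ a) (hcount : a + b * (a + c - 1) ≤ 216) :
    ∃ Q : MvPolynomial (Fin 217) ℂ, Q ≠ 0 ∧ ∀ W : Fin 4 → ℕ → ℕ → ℂ,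
      eval (fun k : Fin 217 => coeff (expo k) (net a b c W 0)) Q = 0 := by
  obtain ⟨Q, hQ0, hQ⟩ := exists_relation a b c ha hcount
  refine ⟨Q, hQ0, fun W => ?_⟩
  obtain ⟨eW, heW⟩ : ∃ eW : Fin 4 → ℕ → ℕ → Polynomial ℂ,
    eW = pW (fun l x y => Polynomial.C (W l x y)) Polynomial.X := ⟨_, rfl⟩
  obtain ⟨q, hqdef⟩ : ∃ q : Polynomial ℂ,
    q = eval₂ Polynomial.C (fun k : Fin 217 => coeff (expo k) (net a b c eW 0)) Q := ⟨_, rfl⟩
  have hq : ∀ ε : ℂ, q.eval ε = eval (fun k : Fin 217 => coeff (expo k)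
      (net a b c (pW W ε) 0)) Q := by
    intro ε
    have h1 : q.eval ε = (Polynomial.evalRingHom ε) q := rfl
    rw [h1, hqdef, hom_eval₂]
    have h4 : (Polynomial.evalRingHom ε).comp (Polynomial.C) = RingHom.id ℂ := by
      ext r <;> simp
    have h5 : (fun k : Fin 217 => (Polynomial.evalRingHom ε) (coeff (expo k) (net a b c eW 0))) =
        fun k : Fin 217 => coeff (expo k) (net a b c (pW W ε) 0) := by
      funext k
      have h6 : (Polynomial.evalRingHom ε) (coeff (expo k) (net a b c eW 0)) =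
          coeff (expo k) (MvPolynomial.map (Polynomial.evalRingHom ε) (net a b c eW 0)) := by
        rw [coeff_map]
      have h7 : (fun l x y => (Polynomial.evalRingHom ε) (eW l x y)) = pW W ε := by
        rw [heW, map_pW]
        simp
      rw [h6, map_net, h7]
    rw [h4, h5, eval₂_id]
  have hq0 : q = 0 := by
    by_contra hne
    obtain ⟨ε, hε⟩ := Set.Infinite.exists_notMem_finset (Set.infinite_univ (α := ℂ))
      (q.roots.toFinset ∪ ((range a).image (fun h => - W 0 h 0) ∪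
      (range b).image (fun i => - W 1 i 0)))
    have hε2 := hε.2
    simp only [Finset.mem_union, not_or, Finset.mem_image, mem_range, not_exists, not_and] at hε2
    obtain ⟨hr, hA, hB⟩ := hε2
    apply hr
    rw [Multiset.mem_toFinset, Polynomial.mem_roots hne, Polynomial.IsRoot.def, hq ε]
    obtain ⟨v, hv⟩ := net_normal a b c (pW W ε) ha
      (by
        intro h hh hz
        simp only [pW, if_true] at hz
        exact hA h hh (by linear_combination -hz))
      (by
        intro i hi hz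
        simp only [pW, if_true] at hz
        exact hB i hi (by linear_combination -hz))
    rw [hv]
    exact hQ v
  have := hq 0
  rw [hq0, Polynomial.eval_zero, pW_zero] at this
  exact this.symm

end Pool.Agent.W469.A30
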