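import Pool.Agent.W886.RU.Stm0

set_option autoImplicit false

/-! Project RU: the asymptotic bound. -/

namespace Pool.Agent.W469.RUASY

open Filter Topology

theorem growth (Q : ℕ) : ∀ᶠ n : ℕ in atTop,
    3 * ((n : ℝ) + 1) ^ (2 * Q + 4) *
      Real.exp (Q * Real.log ((n : ℝ) + 1) * Real.sqrt ((n : ℝ) + 1)) ≤ 2 ^ n := by
  set δ : ℝ := 1 / (4 * (3 * (Q : ℝ) + 4)) with hδ
  have hδ0 : 0 < δ := by positivity
  have h1 : ∀ᶠ x : ℝ in atTop, Real.log x ≤ δ * Real.sqrt x := by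
    have h := (isLittleO_log_rpow_atTop (by norm_num : (0 : ℝ) < 1 / 2)).bound hδ0
    filter_upwards [h, eventually_ge_atTop 1] with x hx hx1
    rw [Real.norm_of_nonneg (Real.log_nonneg hx1), Real.norm_of_nonneg (by positivity),
      ← Real.sqrt_eq_rpow] at hx
    exact hx
  have h2 : Tendsto (fun n : ℕ => (n : ℝ) + 1) atTop atTop :=
    tendsto_atTop_add_const_right _ _ tendsto_natCast_atTop_atTop
  filter_upwards [h2.eventually h1, eventually_ge_atTop 20] with n hn hn20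
  set x : ℝ := (n : ℝ) + 1 with hx
  have hn' : (20 : ℝ) ≤ n := by exact_mod_cast hn20
  have hx21 : 21 ≤ x := by rw [hx]; linarith
  have hx0 : 0 < x := by linarith
  have hx1 : 1 ≤ x := by linarith
  have hs1 : Real.sqrt x ≤ x := by
    rw [Real.sqrt_le_left hx0.le]
    nlinarith
  have hs0 : 0 ≤ Real.sqrt x := Real.sqrt_nonneg x
  have hss : Real.sqrt x * Real.sqrt x = x := Real.mul_self_sqrt hx0.le
  have hl : Real.log x ≤ δ * x := hn.trans (mul_le_mul_of_nonneg_left hs1 hδ0.le)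
  have hl2 : Real.log x * Real.sqrt x ≤ δ * x := by
    calc Real.log x * Real.sqrt x ≤ δ * Real.sqrt x * Real.sqrt x :=
          mul_le_mul_of_nonneg_right hn hs0
      _ = δ * x := by rw [mul_assoc, hss]
  have e1 : 3 * x ^ (2 * Q + 4) * Real.exp (Q * Real.log x * Real.sqrt x) ≤
      Real.exp (2 + ((2 * Q + 4 : ℕ) : ℝ) * Real.log x + Q * Real.log x * Real.sqrt x) := by
    rw [Real.exp_add, Real.exp_add, Real.exp_nat_mul, Real.exp_log hx0]
    have : (3 : ℝ) ≤ Real.exp 2 := by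
      have := Real.add_one_le_exp 2
      linarith
    gcongr
  have e2 : 2 + ((2 * Q + 4 : ℕ) : ℝ) * Real.log x + Q * Real.log x * Real.sqrt x ≤
      n * Real.log 2 := by
    have hQ : (0 : ℝ) ≤ Q := Nat.cast_nonneg Q
    have a1 : ((2 * Q + 4 : ℕ) : ℝ) * Real.log x ≤ (2 * Q + 4) * (δ * x) := by
      push_cast
      exact mul_le_mul_of_nonneg_left hl (by positivity)
    have a2 : Q * Real.log x * Real.sqrt x ≤ Q * (δ * x) := by
      rw [mul_assoc]
      exact mul_le_mul_of_nonneg_left hl2 hQ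
    have a3 : (3 * (Q : ℝ) + 4) * (δ * x) = x / 4 := by
      rw [hδ]
      field_simp
    have a4 : (1 : ℝ) / 2 ≤ Real.log 2 := by
      have := Real.log_two_gt_d9
      linarith
    have a5 : (n : ℝ) * (1 / 2) ≤ n * Real.log 2 := by nlinarith
    have a6 : x = n + 1 := hx
    nlinarith
  calc _ ≤ _ := e1
    _ ≤ Real.exp (n * Real.log 2) := Real.exp_le_exp.2 e2
    _ = 2 ^ n := by rw [Real.exp_nat_mul, Real.exp_log (by norm_num)]

theorem root (Q : ℕ) (hQ : 1 ≤ Q) (N : ℕ) : ∃ n : ℕ, n ^ Q ≤ N ∧ N < (n + 1) ^ Q := by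
  have hex : ∃ n : ℕ, N < (n + 1) ^ Q := by
    refine ⟨N, ?_⟩
    calc N < N + 1 := Nat.lt_succ_self N
      _ = (N + 1) ^ 1 := (pow_one _).symm
      _ ≤ (N + 1) ^ Q := Nat.pow_le_pow_right (Nat.succ_pos N) hQ
  classical
  refine ⟨Nat.find hex, ?_, Nat.find_spec hex⟩
  rcases Nat.eq_zero_or_pos (Nat.find hex) with h | h
  · rw [h, zero_pow (by omega)]
    exact Nat.zero_le N
  · have := Nat.find_min hex (m := Nat.find hex - 1) (by omega)
    rw [Nat.sub_add_cancel h] at this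
    exact not_lt.1 this

theorem task : Pool.Agent.W886.RU.S_ASY := by
  intro k c
  set Q : ℕ := (k + 6) * (c + 1) with hQ
  have hQ1 : 1 ≤ Q := Nat.mul_pos (by omega) (by omega)
  have hQr : (0 : ℝ) < Q := by exact_mod_cast hQ1
  refine ⟨1 / (2 * Q), by positivity, ?_⟩
  intro x₀
  obtain ⟨n1, hn1⟩ := eventually_atTop.1 (growth Q)
  set n0 : ℕ := n1 + 24 ^ k + x₀ + 4 with hn0
  rw [eventually_atTop]
  refine ⟨(n0 + 1) ^ Q, fun N hN => ?_⟩
  obtain ⟨n, hn2, hn3⟩ := root Q hQ1 N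
  have hnn : n0 ≤ n := by
    by_contra h
    push Not at h
    have h1 : (n + 1) ^ Q ≤ (n0 + 1) ^ Q := Nat.pow_le_pow_left (by omega) Q
    omega
  obtain ⟨w, hw⟩ : ∃ w : ℕ, w = 24 ^ k := ⟨_, rfl⟩
  rw [← hw] at hn0
  have h4 : 4 ≤ n := by omega
  have h24 : 24 ^ k ≤ n := by rw [← hw]; omega
  have hn0' : 0 < n := by omega
  have hg := hn1 n (by omega)
  have hM : (2 * n ^ (k + 5) + 2) ^ c ≤ N := by
    have h1 : 1 ≤ n ^ (k + 5) := Nat.one_le_pow _ _ hn0'
    have h2 : 2 * n ^ (k + 5) + 2 ≤ n ^ (k + 6) := by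
      calc 2 * n ^ (k + 5) + 2 ≤ 4 * n ^ (k + 5) := by omega
        _ ≤ n * n ^ (k + 5) := Nat.mul_le_mul_right _ h4
        _ = n ^ (k + 6) := by ring
    calc (2 * n ^ (k + 5) + 2) ^ c ≤ (n ^ (k + 6)) ^ c := Nat.pow_le_pow_left h2 c
      _ = n ^ ((k + 6) * c) := (pow_mul _ _ _).symm
      _ ≤ n ^ Q := Nat.pow_le_pow_right hn0' (Nat.mul_le_mul_left _ (by omega))
      _ ≤ N := hn2
  refine ⟨n ^ (k + 5), n, n, n * n, n ^ (k + 2), ?_, by omega, hM, ?_, le_rfl, ?_, ?_⟩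
  · calc x₀ ≤ n := by omega
      _ = n ^ 1 := (pow_one n).symm
      _ ≤ n ^ (k + 5) := Nat.pow_le_pow_right hn0' (by omega)
  · calc n = n ^ 1 := (pow_one n).symm
      _ ≤ n ^ (k + 5) := Nat.pow_le_pow_right hn0' (by omega)
  · have h1 : n * n + 1 ≤ n ^ 3 := by nlinarith [Nat.mul_le_mul h4 h4]
    calc (n * n + 1) * n ^ (k + 2) ≤ n ^ 3 * n ^ (k + 2) := Nat.mul_le_mul_right _ h1
      _ = n ^ (k + 5) := by ring
  · set x : ℝ := (n : ℝ) + 1 with hx
    have hnr : (4 : ℝ) ≤ n := by exact_mod_cast h4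
    have hx1 : 1 ≤ x := by rw [hx]; linarith
    have hx0 : 0 < x := by linarith
    have hNx : (N : ℝ) + 1 ≤ x ^ Q := by
      have : N + 1 ≤ (n + 1) ^ Q := hn3
      have h : ((N + 1 : ℕ) : ℝ) ≤ (((n + 1) ^ Q : ℕ) : ℝ) := by exact_mod_cast this
      push_cast at h
      exact h
    have hN1 : 1 ≤ N := le_trans (Nat.one_le_pow _ _ (by omega)) hN
    have hNr : (1 : ℝ) ≤ N := by exact_mod_cast hN1
    have hxn : (n : ℝ) ≤ x := by rw [hx]; linarith
    have hhalf : (0 : ℝ) < (1 / 2) ^ n := by positivity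
    have T1 : (n : ℝ) * (2 * ((n ^ (k + 5) : ℕ) : ℝ) + 2) ^ c * (1 / 2) ^ (n + 1) ≤
        x ^ (Q + 4) * (1 / 2) ^ n := by
      have h1 : (2 * ((n ^ (k + 5) : ℕ) : ℝ) + 2) ^ c ≤ x ^ Q := by
        have h : (((2 * n ^ (k + 5) + 2) ^ c : ℕ) : ℝ) ≤ (N : ℝ) := by exact_mod_cast hM
        have h' : (2 * ((n ^ (k + 5) : ℕ) : ℝ) + 2) ^ c =
          (((2 * n ^ (k + 5) + 2) ^ c : ℕ) : ℝ) := by push_cast; rfl
        rw [h']
        linarith
      have h2 : ((1 : ℝ) / 2) ^ (n + 1) ≤ (1 / 2) ^ n :=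
        pow_le_pow_of_le_one (by norm_num) (by norm_num) (by omega)
      calc _ ≤ x * x ^ Q * (1 / 2) ^ n := by gcongr
        _ = x ^ (Q + 1) * (1 / 2) ^ n := by rw [pow_succ]; ring
        _ ≤ x ^ (Q + 4) * (1 / 2) ^ n :=
          mul_le_mul_of_nonneg_right (pow_le_pow_right₀ hx1 (by omega)) hhalf.le
    have T2 : (n : ℝ) * ((((n * n : ℕ) : ℝ) + 1) *
        (1 - (1 / (24 * n : ℝ)) ^ k) ^ (n ^ (k + 2))) ≤ x ^ (Q + 4) * (1 / 2) ^ n := by
      set y : ℝ := (1 / (24 * n : ℝ)) ^ k with hy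
      have hy0 : 0 ≤ y := by positivity
      have hy1 : y ≤ 1 := by
        apply pow_le_one₀ (by positivity)
        rw [div_le_one (by positivity)]
        linarith
      have h1 : (1 - y) ^ (n ^ (k + 2)) ≤ (1 / 2) ^ n := by
        have h2 : 1 - y ≤ Real.exp (-y) := by
          have := Real.add_one_le_exp (-y)
          linarith
        have h3 : (1 - y) ^ (n ^ (k + 2)) ≤ Real.exp (-y) ^ (n ^ (k + 2)) :=
          pow_le_pow_left₀ (by linarith) h2 _
        rw [← Real.exp_nat_mul] at h3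
        have h4' : (n : ℝ) ≤ ((n ^ (k + 2) : ℕ) : ℝ) * y := by
          rw [hy]
          push_cast
          rw [div_pow, one_pow, mul_pow, mul_one_div, le_div_iff₀ (by positivity)]
          have h5 : ((24 : ℝ)) ^ k ≤ n := by exact_mod_cast h24
          have hnk : (0 : ℝ) ≤ (n : ℝ) ^ (k + 1) := by positivity
          calc (n : ℝ) * (24 ^ k * (n : ℝ) ^ k) = 24 ^ k * (n : ℝ) ^ (k + 1) := by ring
            _ ≤ n * (n : ℝ) ^ (k + 1) := mul_le_mul_of_nonneg_right h5 hnk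
            _ = (n : ℝ) ^ (k + 2) := by ring
        have h6 : Real.exp (((n ^ (k + 2) : ℕ) : ℝ) * -y) ≤ Real.exp (-(n : ℝ)) :=
          Real.exp_le_exp.2 (by linarith)
        have h7 : Real.exp (-(n : ℝ)) ≤ (1 / 2) ^ n := by
          have h8 : Real.exp (-(n : ℝ)) = Real.exp (-1) ^ n := by
            rw [← Real.exp_nat_mul]; ring_nf
          rw [h8]
          apply pow_le_pow_left₀ (Real.exp_pos _).le
          rw [Real.exp_neg, ← one_div]
          apply one_div_le_one_div_of_le (by norm_num)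
          have := Real.add_one_le_exp 1
          linarith
        exact h3.trans (h6.trans h7)
      have h2 : (((n * n : ℕ) : ℝ) + 1) ≤ x ^ 2 := by
        push_cast
        rw [hx]
        nlinarith
      calc _ ≤ x * (x ^ 2 * (1 / 2) ^ n) := by
            have : 0 ≤ (1 - y) ^ (n ^ (k + 2)) := pow_nonneg (by linarith) _
            gcongr
        _ = x ^ 3 * (1 / 2) ^ n := by ring
        _ ≤ x ^ (Q + 4) * (1 / 2) ^ n :=
          mul_le_mul_of_nonneg_right (pow_le_pow_right₀ hx1 (by omega)) hhalf.le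
    have T3 : ((1 : ℝ) / 2) ^ n ≤ x ^ (Q + 4) * (1 / 2) ^ n := by
      have : 1 ≤ x ^ (Q + 4) := one_le_pow₀ hx1
      nlinarith
    have T4 : ((N : ℝ) + 1) ^ ((N : ℝ) ^ (1 / (2 * (Q : ℝ)))) ≤
        Real.exp (Q * Real.log x * Real.sqrt x) := by
      have hN1' : 0 < (N : ℝ) + 1 := by linarith
      rw [Real.rpow_def_of_pos hN1']
      apply Real.exp_le_exp.2
      have h1 : Real.log ((N : ℝ) + 1) ≤ Q * Real.log x := by
        rw [← Real.log_pow]
        exact Real.log_le_log hN1' hNx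
      have h2 : (N : ℝ) ^ (1 / (2 * (Q : ℝ))) ≤ Real.sqrt x := by
        calc (N : ℝ) ^ (1 / (2 * (Q : ℝ))) ≤ (x ^ Q) ^ (1 / (2 * (Q : ℝ))) :=
              Real.rpow_le_rpow (by linarith) (by linarith) (by positivity)
          _ = Real.sqrt x := by
              rw [← Real.rpow_natCast, ← Real.rpow_mul hx0.le, Real.sqrt_eq_rpow]
              congr 1
              field_simp
      have h3 : 0 ≤ Real.log ((N : ℝ) + 1) := Real.log_nonneg (by linarith)
      have h4 : 0 ≤ Real.sqrt x := Real.sqrt_nonneg x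
      calc Real.log ((N : ℝ) + 1) * (N : ℝ) ^ (1 / (2 * (Q : ℝ))) ≤
          Real.log ((N : ℝ) + 1) * Real.sqrt x := mul_le_mul_of_nonneg_left h2 h3
        _ ≤ Q * Real.log x * Real.sqrt x := mul_le_mul_of_nonneg_right h1 h4
    have hsum := add_le_add (add_le_add T1 T2) T3
    set Ex := Real.exp (Q * Real.log x * Real.sqrt x) with hEx
    have hEx0 : 0 < Ex := Real.exp_pos _
    have hxQ : 0 < x ^ Q := by positivity
    calc _ ≤ (x ^ (Q + 4) * (1 / 2) ^ n + x ^ (Q + 4) * (1 / 2) ^ n +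
          x ^ (Q + 4) * (1 / 2) ^ n) * Ex := by
          apply mul_le_mul hsum T4 (by positivity) (by positivity)
      _ = (3 * x ^ (2 * Q + 4) * Ex) * (1 / 2) ^ n / x ^ Q := by
          rw [show 2 * Q + 4 = Q + 4 + Q by ring, pow_add x (Q + 4) Q]
          field_simp
          ring
      _ ≤ 2 ^ n * (1 / 2) ^ n / x ^ Q := by gcongr
      _ = 1 / x ^ Q := by rw [← mul_pow]; norm_num
      _ ≤ 1 / N := one_div_le_one_div_of_le (by linarith) (by linarith)

end Pool.Agent.W469.RUASY
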